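import Pool.Agent.R804.TU.Lap

/-!
# The off-diagonal entries of the Laplacian
-/

set_option autoImplicit false

namespace Pool.Agent.R804.TU

open Finset

/-- The diagonal contribution of two consecutive circles. -/
noncomputable def pd (β γ : Circ) : ℝ := if β.2 || γ.2 then 1 else 0

/-- The sum of `G` over the results of the moves of two consecutive circles. -/
noncomputable def PP (β γ : Circ) (G : Circ → Circ → ℝ) : ℝ :=
  match β, γ with
  | (_, true), (_, true) => 0
  | (m, true), (m', false) => ∑ a ∈ range (m + 1), G (a, false) (m + m' - a, true)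
  | (m, false), (m', true) => ∑ b ∈ range (m' + 1), G (m + b, true) (m' - b, false)
  | (m, false), (m', false) => (∑ a ∈ range m, G (a, false) (m + m' - a, false))
      + ∑ b ∈ range m', G (m + b + 1, false) (m' - 1 - b, false)

theorem sum_split (m m' : ℕ) (F : ℕ → ℝ) :
    ∑ a ∈ range (m + m' + 1), F a
      = (∑ a ∈ range m, F a) + F m + ∑ b ∈ range m', F (m + b + 1) := by
  rw [add_assoc, Finset.sum_range_add, Finset.sum_range_succ' (fun x => F (m + x))]
  simp only [add_zero, add_assoc]
  ring

theorem neg_one_pow_sub (m a : ℕ) (h : a < m) :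
    (-1 : ℝ) ^ (m - 1 - a) = - ((-1) ^ m * (-1) ^ a) := by
  obtain ⟨c, rfl⟩ : ∃ c, m = a + c + 1 := ⟨m - a - 1, by omega⟩
  have : a + c + 1 - 1 - a = c := by omega
  rw [this, pow_succ, pow_add]
  have := neg_one_sq_pow a
  linear_combination (-(-1) ^ c) * this

theorem neg_one_pow_add' (m b : ℕ) :
    (-1 : ℝ) ^ m * (-1) ^ (m + b + 1) = - (-1) ^ b := by
  rw [pow_succ, pow_add]
  have := neg_one_sq_pow m
  linear_combination (-(-1) ^ b) * this

theorem JJ_tt (m m' : ℕ) (G : Circ → Circ → ℝ) :
    JJ (m, true) (m', true) G = G (m, true) (m', true) := by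
  unfold JJ Sp
  simp only [Bool.or_self, Bool.and_self, if_true]
  rw [sum_split, mul_add, mul_add, Finset.mul_sum, Finset.mul_sum]
  have h1 : ∑ a ∈ range m, (-1 : ℝ) ^ (m - 1 - a) * G (a, true) (m - 1 - a + m' + 1, true)
      = - ∑ a ∈ range m, (-1) ^ m * ((-1) ^ a * G (a, true) (m + m' - a, true)) := by
    rw [← Finset.sum_neg_distrib]
    apply Finset.sum_congr rfl
    intro a ha
    have ha' := Finset.mem_range.1 ha
    rw [neg_one_pow_sub m a ha', show m - 1 - a + m' + 1 = m + m' - a by omega]
    ring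
  have h2 : ∑ b ∈ range m', (-1 : ℝ) ^ b * G (m + b + 1, true) (m' - 1 - b, true)
      = - ∑ b ∈ range m', (-1) ^ m * ((-1) ^ (m + b + 1)
        * G (m + b + 1, true) (m + m' - (m + b + 1), true)) := by
    rw [← Finset.sum_neg_distrib]
    apply Finset.sum_congr rfl
    intro b hb
    have hb' := Finset.mem_range.1 hb
    rw [← mul_assoc ((-1 : ℝ) ^ m), neg_one_pow_add', show m + m' - (m + b + 1) = m' - 1 - b by omega]
    ring
  rw [h1, h2, show m + m' - m = m' by omega, ← mul_assoc ((-1 : ℝ) ^ m) ((-1) ^ m),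
    neg_one_sq_pow]
  ring

theorem JJ_tf (m m' : ℕ) (G : Circ → Circ → ℝ) :
    JJ (m, true) (m', false) G = G (m, true) (m', false) + G (m, false) (m', true)
      + ∑ a ∈ range m, (-1) ^ m * ((-1) ^ a * G (a, false) (m + m' - a, true)) := by
  unfold JJ Sp
  simp only [Bool.true_or, Bool.and_false, if_true, Bool.true_and, Bool.or_false,
    Bool.false_eq_true, if_false]
  rw [sum_split, mul_add, mul_add, Finset.mul_sum, Finset.mul_sum]
  have h1 : ∑ a ∈ range m, (-1 : ℝ) ^ (m - 1 - a) * G (a, true) (m - 1 - a + m' + 1, false)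
      = - ∑ a ∈ range m, (-1) ^ m * ((-1) ^ a * G (a, true) (m + m' - a, false)) := by
    rw [← Finset.sum_neg_distrib]
    apply Finset.sum_congr rfl
    intro a ha
    have ha' := Finset.mem_range.1 ha
    rw [neg_one_pow_sub m a ha', show m - 1 - a + m' + 1 = m + m' - a by omega]
    ring
  have h2 : ∑ b ∈ range m', (-1 : ℝ) ^ b * (G (m + b + 1, true) (m' - 1 - b, false)
        + G (m + b + 1, false) (m' - 1 - b, true))
      = - ∑ b ∈ range m', (-1) ^ m * ((-1) ^ (m + b + 1)
        * (G (m + b + 1, true) (m + m' - (m + b + 1), false)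
          + G (m + b + 1, false) (m + m' - (m + b + 1), true))) := by
    rw [← Finset.sum_neg_distrib]
    apply Finset.sum_congr rfl
    intro b hb
    have hb' := Finset.mem_range.1 hb
    rw [← mul_assoc ((-1 : ℝ) ^ m), neg_one_pow_add', show m + m' - (m + b + 1) = m' - 1 - b by omega]
    ring
  rw [h1, h2, show m + m' - m = m' by omega, ← mul_assoc ((-1 : ℝ) ^ m) ((-1) ^ m),
    neg_one_sq_pow]
  simp only [mul_add, Finset.sum_add_distrib]
  ring

theorem JJ_ft (m m' : ℕ) (G : Circ → Circ → ℝ) :
    JJ (m, false) (m', true) G = G (m, false) (m', true) + G (m, true) (m', false)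
      - ∑ b ∈ range m', (-1) ^ b * G (m + b + 1, true) (m' - 1 - b, false) := by
  unfold JJ Sp
  simp only [Bool.or_true, Bool.false_and, if_true, Bool.false_eq_true, if_false, Bool.and_self]
  rw [sum_split, mul_add, mul_add, Finset.mul_sum, Finset.mul_sum]
  have h1 : ∑ a ∈ range m, (-1 : ℝ) ^ (m - 1 - a) * (G (a, true) (m - 1 - a + m' + 1, false)
        + G (a, false) (m - 1 - a + m' + 1, true))
      = - ∑ a ∈ range m, (-1) ^ m * ((-1) ^ a * (G (a, true) (m + m' - a, false)
        + G (a, false) (m + m' - a, true))) := by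
    rw [← Finset.sum_neg_distrib]
    apply Finset.sum_congr rfl
    intro a ha
    have ha' := Finset.mem_range.1 ha
    rw [neg_one_pow_sub m a ha', show m - 1 - a + m' + 1 = m + m' - a by omega]
    ring
  have h2 : ∑ b ∈ range m', (-1) ^ m * ((-1) ^ (m + b + 1)
        * (G (m + b + 1, true) (m + m' - (m + b + 1), false)
          + G (m + b + 1, false) (m + m' - (m + b + 1), true)))
      = - ∑ b ∈ range m', (-1 : ℝ) ^ b * (G (m + b + 1, true) (m' - 1 - b, false)
        + G (m + b + 1, false) (m' - 1 - b, true)) := by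
    rw [← Finset.sum_neg_distrib]
    apply Finset.sum_congr rfl
    intro b hb
    have hb' := Finset.mem_range.1 hb
    rw [← mul_assoc ((-1 : ℝ) ^ m), neg_one_pow_add', show m + m' - (m + b + 1) = m' - 1 - b by omega]
    ring
  rw [h1, h2, show m + m' - m = m' by omega, ← mul_assoc ((-1 : ℝ) ^ m) ((-1) ^ m),
    neg_one_sq_pow]
  simp only [mul_add, Finset.sum_add_distrib]
  ring

theorem JJ_ff (m m' : ℕ) (G : Circ → Circ → ℝ) :
    JJ (m, false) (m', false) G =
      (∑ b ∈ range m', (-1) ^ b * G (m + b + 1, false) (m' - 1 - b, false))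
      + ∑ a ∈ range m, (-1) ^ (m - 1 - a) * G (a, false) (m + m' - a, false) := by
  unfold JJ Sp
  simp only [Bool.or_true, Bool.false_and, if_true, Bool.false_eq_true, if_false, Bool.or_self,
    Bool.or_false, zero_add, add_zero, Bool.and_false]
  congr 1
  apply Finset.sum_congr rfl
  intro a ha
  have ha' := Finset.mem_range.1 ha
  rw [show m - 1 - a + m' + 1 = m + m' - a by omega]

theorem abs_pow_mul (n : ℕ) (x : ℝ) : |(-1 : ℝ) ^ n * x| = |x| := by
  rw [abs_mul, abs_pow]; simp

theorem abs_sum_sign_le (s : Finset ℕ) (e : ℕ → ℕ) (F : ℕ → ℝ) :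
    |∑ a ∈ s, (-1 : ℝ) ^ e a * F a| ≤ ∑ a ∈ s, |F a| := by
  refine (Finset.abs_sum_le_sum_abs _ _).trans (le_of_eq ?_)
  apply Finset.sum_congr rfl
  intro a _
  exact abs_pow_mul _ _

theorem JJ_bound (β γ : Circ) (G : Circ → Circ → ℝ) :
    |JJ β γ G - pd β γ * G β γ| ≤ PP β γ (fun x y => |G x y|) := by
  obtain ⟨m, a⟩ := β
  obtain ⟨m', a'⟩ := γ
  cases a <;> cases a'
  · rw [JJ_ff]
    simp only [pd, PP, Bool.or_self, Bool.false_eq_true, if_false, zero_mul, sub_zero]
    refine (abs_add_le _ _).trans ?_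
    rw [add_comm]
    exact add_le_add (abs_sum_sign_le _ (fun a => m - 1 - a) _) (abs_sum_sign_le _ (fun b => b) _)
  · rw [JJ_ft]
    simp only [pd, PP, Bool.or_true, if_true, one_mul]
    have e : G (m, false) (m', true) + G (m, true) (m', false)
        - ∑ b ∈ range m', (-1) ^ b * G (m + b + 1, true) (m' - 1 - b, false)
        - G (m, false) (m', true)
        = G (m, true) (m', false)
          - ∑ b ∈ range m', (-1) ^ b * G (m + b + 1, true) (m' - 1 - b, false) := by ring
    rw [e, Finset.sum_range_succ']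
    refine (abs_sub _ _).trans ?_
    rw [add_comm]
    apply add_le_add
    · refine (abs_sum_sign_le _ (fun b => b) _).trans (le_of_eq ?_)
      apply Finset.sum_congr rfl
      intro b hb
      have hb' := Finset.mem_range.1 hb
      rw [show m' - (b + 1) = m' - 1 - b by omega, show m + (b + 1) = m + b + 1 by omega]
    · simp
  · rw [JJ_tf]
    simp only [pd, PP, Bool.true_or, if_true, one_mul]
    have e : G (m, true) (m', false) + G (m, false) (m', true)
      + ∑ a ∈ range m, (-1) ^ m * ((-1) ^ a * G (a, false) (m + m' - a, true))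
        - G (m, true) (m', false)
        = (∑ a ∈ range m, (-1) ^ m * ((-1) ^ a * G (a, false) (m + m' - a, true)))
          + G (m, false) (m', true) := by ring
    rw [e, Finset.sum_range_succ, show m + m' - m = m' by omega]
    refine (abs_add_le _ _).trans ?_
    apply add_le_add
    · rw [← Finset.mul_sum, abs_pow_mul]
      exact abs_sum_sign_le _ (fun b => b) _
    · exact le_refl _
  · rw [JJ_tt]
    simp [pd, PP]

/-- The diagonal of the Laplacian. -/
noncomputable def DD : List Circ → ℝ
  | [] => 0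
  | [β] => 2 * half β
  | β :: γ :: w => 2 * half β + pd β γ + DD (γ :: w)

/-- The sum of `f` over the results of all moves. -/
noncomputable def NS : Fn → List Circ → ℝ
  | _, [] => 0
  | _, [_] => 0
  | f, β :: γ :: w => PP β γ (fun x y => f (x :: y :: w)) + NS (fun u => f (β :: u)) (γ :: w)

theorem LL_nil (f : Fn) : LL f [] = 0 := by simp [LL, dT_nil, dS_nil]

theorem LL_bound (f : Fn) (w : List Circ) :
    |LL f w - DD w * f w| ≤ NS (fun u => |f u|) w := by
  induction w generalizing f with
  | nil => simp [LL_nil, DD, NS]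
  | cons β w ih =>
    rw [LL_cons]
    rcases w with _ | ⟨γ, w⟩
    · rw [LL_nil]
      simp [DD, NS]
    · simp only [DD, NS]
      have h1 := ih (fun u => f (β :: u))
      have h2 := JJ_bound β γ (fun x y => f (x :: y :: w))
      have e : LL (fun u => f (β :: u)) (γ :: w) + 2 * half β * f (β :: γ :: w)
          + JJ β γ (fun x y => f (x :: y :: w))
          - (2 * half β + pd β γ + DD (γ :: w)) * f (β :: γ :: w)
          = (JJ β γ (fun x y => f (x :: y :: w)) - pd β γ * f (β :: γ :: w))
            + (LL (fun u => f (β :: u)) (γ :: w) - DD (γ :: w) * f (β :: γ :: w)) := by ring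
      rw [e]
      exact (abs_add_le _ _).trans (add_le_add h2 h1)

end Pool.Agent.R804.TU
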