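import Pool.Agent.R804.TU.Trig

/-!
# Cutting a list of circles at its second label `𝟏`
-/

set_option autoImplicit false

namespace Pool.Agent.R804.TU

open Finset

/-! ### Local energies of an appended list -/

theorem Eg_append (u : List Circ) (f : Fn) (β x : Circ) (t : List Circ) :
    Eg f (u ++ β :: x :: t) = Eg (fun v => f (v ++ x :: t)) (u ++ [β])
      + (share β x * f (u ++ β :: x :: t) - PP β x (fun y z => f (u ++ y :: z :: t)))
      + Eg (fun v => f (u ++ β :: v)) (x :: t) := by
  induction u generalizing f with
  | nil => simp [Eg]
  | cons γ u ih =>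
    have h := ih (fun v => f (γ :: v))
    rcases u with _ | ⟨δ, u⟩
    · simp only [List.nil_append, List.cons_append, Eg] at h ⊢
      rw [h]; ring
    · simp only [List.cons_append, List.append_assoc, List.nil_append, Eg] at h ⊢
      rw [h]; ring

theorem share_comm (β γ : Circ) : share β γ = share γ β := by
  unfold share pd
  rw [Bool.or_comm]; ring

theorem PP_swap (β γ : Circ) (G : Circ → Circ → ℝ) :
    PP β γ G = PP γ β (fun x y => G y x) := by
  obtain ⟨m, a⟩ := β
  obtain ⟨m', a'⟩ := γ
  cases a <;> cases a' <;> simp only [PP]
  · rw [add_comm]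
    congr 1
    · rw [← Finset.sum_range_reflect]
      apply Finset.sum_congr rfl
      intro a ha
      have := Finset.mem_range.1 ha
      rw [show m + (m' - 1 - a) + 1 = m' + m - a by omega, show m' - 1 - (m' - 1 - a) = a by omega]
    · rw [← Finset.sum_range_reflect]
      apply Finset.sum_congr rfl
      intro a ha
      have := Finset.mem_range.1 ha
      rw [show m + m' - (m - 1 - a) = m' + a + 1 by omega]
  · rw [← Finset.sum_range_reflect]
    apply Finset.sum_congr rfl
    intro a ha
    have := Finset.mem_range.1 ha
    rw [show m + (m' + 1 - 1 - a) = m' + m - a by omega, show m' - (m' + 1 - 1 - a) = a by omega]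
  · rw [← Finset.sum_range_reflect]
    apply Finset.sum_congr rfl
    intro a ha
    have := Finset.mem_range.1 ha
    rw [show m + m' - (m + 1 - 1 - a) = m' + a by omega, show m + 1 - 1 - a = m - a by omega]

theorem Eg_rev (w : List Circ) (f : Fn) : Eg f w.reverse = Eg (fun v => f v.reverse) w := by
  induction w generalizing f with
  | nil => simp [Eg]
  | cons β w ih =>
    rcases w with _ | ⟨γ, w⟩
    · simp [Eg]
    · have e : (β :: γ :: w).reverse = w.reverse ++ γ :: β :: [] := by simp
      rw [e, Eg_append]
      have h := ih (fun v => f (v ++ [β]))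
      have e2 : (γ :: w).reverse = w.reverse ++ [γ] := by simp
      rw [e2] at h
      rw [h]
      simp only [Eg, List.reverse_cons, List.append_assoc, List.cons_append, List.nil_append]
      rw [share_comm γ β, PP_swap γ β]
      ring

theorem hl_append (u : List Circ) (β : Circ) : hl (u ++ [β]) = half β := by
  induction u with
  | nil => rfl
  | cons γ u ih =>
    rcases u with _ | ⟨δ, u⟩
    · rfl
    · exact ih

theorem hf_rev (w : List Circ) : hf w.reverse = hl w := by
  rcases List.eq_nil_or_concat w with h | ⟨u, β, h⟩
  · subst h; rfl
  · subst h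
    rw [List.concat_eq_append, hl_append, List.reverse_append]
    rfl

theorem hl_rev (w : List Circ) : hl w.reverse = hf w := by
  rw [← hf_rev, List.reverse_reverse]

theorem DD_NS_rev (f : Fn) (w : List Circ) :
    DD w * f w.reverse - NS (fun v => f v.reverse) w
      = DD w.reverse * f w.reverse - NS f w.reverse := by
  rw [DD_NS (fun v => f v.reverse) w, DD_NS f w.reverse, Eg_rev, hf_rev, hl_rev]
  ring

/-! ### Cutting -/

/-- The circles before the `(k + 1)`-st label `𝟏`. -/
def pre : ℕ → List Circ → List Circ
  | _, [] => []
  | 0, β :: w => if β.2 then [] else β :: pre 0 w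
  | k + 1, β :: w => β :: pre (if β.2 then k else k + 1) w

/-- The circles from the `(k + 1)`-st label `𝟏` on. -/
def suf : ℕ → List Circ → List Circ
  | _, [] => []
  | 0, β :: w => if β.2 then β :: w else suf 0 w
  | k + 1, β :: w => suf (if β.2 then k else k + 1) w

theorem pre_suf (w : List Circ) : ∀ k, pre k w ++ suf k w = w := by
  induction w with
  | nil => intro k; cases k <;> rfl
  | cons β w ih =>
    intro k
    cases k with
    | zero =>
      simp only [pre, suf]
      split_ifs
      · rfl
      · rw [List.cons_append, ih]
    | succ k =>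
      simp only [pre, suf]
      rw [List.cons_append, ih]

theorem cut_eq (u : List Circ) (x : Circ) (t : List Circ) (hx : x.2 = true) :
    ∀ k, ones u = k → pre k (u ++ x :: t) = u ∧ suf k (u ++ x :: t) = x :: t := by
  induction u with
  | nil =>
    intro k hk
    rw [ones_nil] at hk
    subst hk
    simp [pre, suf, hx]
  | cons β u ih =>
    intro k hk
    rw [ones_cons] at hk
    cases k with
    | zero =>
      have hb : ¬ β.2 = true := by
        intro hb; rw [if_pos hb] at hk; omega
      rw [if_neg hb] at hk
      obtain ⟨h1, h2⟩ := ih 0 (by omega)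
      constructor
      · simp only [List.cons_append, pre, if_neg hb, h1]
      · simp only [List.cons_append, suf, if_neg hb, h2]
    | succ k =>
      obtain ⟨h1, h2⟩ := ih (if β.2 then k else k + 1) (by split_ifs at * <;> omega)
      constructor
      · simp only [List.cons_append, pre, h1]
      · simp only [List.cons_append, suf, h2]

theorem ones_append (u v : List Circ) : ones (u ++ v) = ones u + ones v := by
  induction u with
  | nil => simp [ones_nil]
  | cons β u ih => rw [List.cons_append, ones_cons, ones_cons, ih]; ring

theorem size_append (u v : List Circ) : size (u ++ v) = size u + size v := by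
  induction u with
  | nil => simp [size_nil]
  | cons β u ih => rw [List.cons_append, size_cons, size_cons, ih]; ring

theorem hdeg_append (u v : List Circ) : hdeg (u ++ v) = hdeg u + hdeg v := by
  induction u with
  | nil => simp [hdeg_nil]
  | cons β u ih => rw [List.cons_append, hdeg_cons, hdeg_cons, ih]; ring

theorem om_append (u v : List Circ) : om (u ++ v) = om u * om v := by
  induction u with
  | nil => simp [om_nil]
  | cons β u ih => rw [List.cons_append, om_cons, om_cons, ih]; ring

theorem ones_rev (u : List Circ) : ones u.reverse = ones u := by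
  induction u with
  | nil => rfl
  | cons β u ih => rw [List.reverse_cons, ones_append, ih, ones_cons, ones_cons, ones_nil]; ring

theorem size_rev (u : List Circ) : size u.reverse = size u := by
  induction u with
  | nil => rfl
  | cons β u ih => rw [List.reverse_cons, size_append, ih, size_cons, size_cons, size_nil]; ring

theorem om_rev (u : List Circ) : om u.reverse = om u := by
  induction u with
  | nil => rfl
  | cons β u ih => rw [List.reverse_cons, om_append, ih, om_cons, om_cons, om_nil]; ring

theorem ones_pre (w : List Circ) : ∀ k, k ≤ ones w → ones (pre k w) = k := by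
  induction w with
  | nil => intro k hk; rw [ones_nil] at hk; have : k = 0 := by omega
           subst this; rfl
  | cons β w ih =>
    intro k hk
    rw [ones_cons] at hk
    cases k with
    | zero =>
      simp only [pre]
      split_ifs with hb
      · rfl
      · rw [ones_cons, if_neg hb, ih 0 (by omega)]
    | succ k =>
      simp only [pre]
      rw [ones_cons, ih _ (by split_ifs at * <;> omega)]
      split_ifs <;> omega

theorem suf_form (w : List Circ) : ∀ k, k < ones w → ∃ x t, suf k w = x :: t ∧ x.2 = true := by
  induction w with
  | nil => intro k hk; rw [ones_nil] at hk; omega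
  | cons β w ih =>
    intro k hk
    rw [ones_cons] at hk
    cases k with
    | zero =>
      simp only [suf]
      by_cases hb : β.2 = true
      · exact ⟨β, w, by simp [hb], hb⟩
      · rw [if_neg hb] at hk
        obtain ⟨x, t, h1, h2⟩ := ih 0 (by omega)
        exact ⟨x, t, by simp [hb, h1], h2⟩
    | succ k =>
      simp only [suf]
      exact ih _ (by split_ifs at * <;> omega)

theorem pre_append (A B : List Circ) : ∀ k, k < ones A → pre k (A ++ B) = pre k A := by
  induction A with
  | nil => intro k hk; rw [ones_nil] at hk; omega
  | cons β A ih =>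
    intro k hk
    rw [ones_cons] at hk
    cases k with
    | zero =>
      simp only [List.cons_append, pre]
      split_ifs with hb
      · rfl
      · rw [if_neg hb] at hk
        rw [ih 0 (by omega)]
    | succ k =>
      simp only [List.cons_append, pre]
      rw [ih _ (by split_ifs at * <;> omega)]

theorem size_pre_le (w : List Circ) (k : ℕ) : size (pre k w) ≤ size w := by
  conv_rhs => rw [← pre_suf w k]
  rw [size_append]; omega

theorem decomp (w : List Circ) (h : 1 < ones w) :
    ∃ u β x t, w = u ++ β :: x :: t ∧ x.2 = true ∧ pre 1 w = u ++ [β] ∧ suf 1 w = x :: t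
      ∧ ones (u ++ [β]) = 1 := by
  obtain ⟨x, t, h1, h2⟩ := suf_form w 1 h
  have h3 := ones_pre w 1 h.le
  rcases List.eq_nil_or_concat (pre 1 w) with h4 | ⟨u, β, h4⟩
  · rw [h4] at h3; simp [ones_nil] at h3
  · rw [List.concat_eq_append] at h4
    refine ⟨u, β, x, t, ?_, h2, h4, h1, ?_⟩
    · have := pre_suf w 1
      rw [h1, h4] at this
      rw [← this]; simp
    · rw [← h4]; exact h3

theorem two_sides (w : List Circ) (h : 3 ≤ ones w) :
    size (pre 1 w) + size (pre 1 w.reverse) + 1 ≤ size w := by
  obtain ⟨u, β, x, t, h1, h2, h3, h4, h5⟩ := decomp w (by omega)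
  have ht : 1 ≤ ones t := by
    have : ones w = ones (u ++ [β]) + ones (x :: t) := by
      rw [← ones_append, h1]; congr 1; simp
    rw [h5, ones_cons, h2] at this
    simp at this
    omega
  have hs : size w = size (u ++ [β]) + (x.1 + 1) + size t := by
    have : size w = size (u ++ [β]) + size (x :: t) := by
      rw [← size_append, h1]; congr 1; simp
    rw [this, size_cons]; ring
  have hrev : w.reverse = t.reverse ++ x :: (u ++ [β]).reverse := by
    rw [h1]; simp
  have key : size (pre 1 w.reverse) ≤ size t := by
    rw [hrev]
    rcases Nat.lt_or_ge 1 (ones t) with h6 | h6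
    · rw [pre_append _ _ 1 (by rw [ones_rev]; exact h6)]
      exact (size_pre_le _ _).trans (le_of_eq (size_rev t))
    · have h7 : ones t.reverse = 1 := by rw [ones_rev]; omega
      rw [(cut_eq t.reverse x _ h2 1 h7).1, size_rev]
  rw [h3]
  omega

theorem pre_of_suf_rev (σ τ : List Circ) (h3 : 3 ≤ ones σ)
    (h : suf 1 σ.reverse = suf 1 τ.reverse) : pre 1 σ = pre 1 τ := by
  have e : ∀ w : List Circ, w = (suf 1 w.reverse).reverse ++ (pre 1 w.reverse).reverse := by
    intro w
    rw [← List.reverse_append, pre_suf, List.reverse_reverse]
  have hA : 1 < ones (suf 1 σ.reverse).reverse := by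
    have h1 : ones σ.reverse = ones (pre 1 σ.reverse) + ones (suf 1 σ.reverse) := by
      rw [← ones_append, pre_suf]
    rw [ones_rev, ones_pre _ 1 (by rw [ones_rev]; omega)] at h1
    rw [ones_rev]
    omega
  rw [e σ, e τ, ← h]
  rw [pre_append _ _ 1 hA, pre_append _ _ 1 hA]

end Pool.Agent.R804.TU
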