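import Mathlib

/-!
# The Khovanov complex of the twisted unknot diagrams `TU_n`

The all-`0` resolution of `TU_n` consists of the circles `C_1, …, C_{n+1}`, and crossing `i` joins
`C_i` and `C_{i+1}`. In the resolution `r ∈ {0,1}^n` the circles are therefore the runs
`C_i ∪ C_{i+1} ∪ … ∪ C_{i+m}` of consecutive `C_i` that are joined by `m` crossings resolved by `1`;
each crossing resolved by `0` lies between two consecutive runs. We list the circles of a
resolution from left to right and record for each circle the number `m` of `1`-resolved crossings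
inside it and its label (`true` stands for the basis vector `𝟏` of `V`, `false` for `X`).
-/

set_option autoImplicit false

namespace Pool.Agent.R804.TU

/-- A labelled circle of a resolution: `(m, b)` is a run of `m + 1` consecutive circles `C_i`
joined by `m` crossings resolved by `1`, with label `𝟏` if `b = true` and `X` if `b = false`. -/
abbrev Circ := ℕ × Bool

/-- The number of the circles `C_i` that a list of runs uses. -/
def size (w : List Circ) : ℕ := (w.map (fun c => c.1 + 1)).sum

/-- Homological degree: the number of crossings resolved by `1`. -/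
def hdeg (w : List Circ) : ℕ := (w.map (fun c => c.1)).sum

/-- `q`-degree: the sum of the degrees of the labels (`deg 𝟏 = 1`, `deg X = -1`) plus the
homological degree. -/
def qdeg (w : List Circ) : ℤ := (w.map (fun c => if c.2 then (1 : ℤ) else -1)).sum + hdeg w

/-- The terms of `d σ`, each with its sign. Changing the crossing between two consecutive circles
from `0` to `1` merges them, the labels being multiplied in `V` (`𝟏𝟏 = 𝟏`, `𝟏X = X𝟏 = X`,
`XX = 0`); the sign is `(-1)^s`, where `s` is the number of `1`-resolved crossings before the
changed one. -/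
def dTerms : List Circ → List (ℤ × List Circ)
  | [] => []
  | [_] => []
  | (m, a) :: (m', a') :: w =>
      (if a || a' then [((-1) ^ m, (m + m' + 1, a && a') :: w)] else []) ++
      (dTerms ((m', a') :: w)).map (fun t => ((-1) ^ m * t.1, (m, a) :: t.2))

/-- The orthonormal basis of the Khovanov complex of `TU_n`: the labelled resolutions. -/
abbrev Gen (n : ℕ) := {w : List Circ // size w = n + 1}

theorem size_cons (c : Circ) (w : List Circ) : size (c :: w) = c.1 + 1 + size w := by
  simp [size]

theorem size_nil : size [] = 0 := rfl

theorem finite_size (N : ℕ) : {w : List Circ | size w = N}.Finite := by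
  induction N using Nat.strong_induction_on with
  | _ N ih =>
    have h : {w : List Circ | size w = N} ⊆
        {[]} ∪ ⋃ m : Fin N, ⋃ b : Bool,
          (fun w => ((m : ℕ), b) :: w) '' {w : List Circ | size w = N - (m + 1)} := by
      intro w hw
      rcases w with _ | ⟨⟨m, b⟩, w⟩
      · left; rfl
      · right
        have hw' : m + 1 + size w = N := by
          have := hw
          simpa [size_cons] using this
        refine Set.mem_iUnion.2 ⟨⟨m, by omega⟩, Set.mem_iUnion.2 ⟨b, ⟨w, ?_, rfl⟩⟩⟩
        change size w = N - (m + 1)
        omega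
    refine Set.Finite.subset ?_ h
    refine Set.Finite.union (Set.finite_singleton _) ?_
    refine Set.finite_iUnion fun m => Set.finite_iUnion fun b => Set.Finite.image _ ?_
    exact ih _ (by have := m.2; omega)

instance (n : ℕ) : Finite (Gen n) := (finite_size (n + 1)).to_subtype

noncomputable instance (n : ℕ) : Fintype (Gen n) := Fintype.ofFinite _

/-- The matrix of the Khovanov differential `d` of `TU_n` in the basis of labelled resolutions: the
entry `(ρ, σ)` is the coefficient of `ρ` in `d σ`. -/
noncomputable def diff (n : ℕ) : Matrix (Gen n) (Gen n) ℝ :=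
  fun ρ σ => ((dTerms σ.1).map (fun t => if t.2 = ρ.1 then (t.1 : ℝ) else 0)).sum

/-- The Khovanov Laplacian `L = d† d + d d†`. -/
noncomputable def lap (n : ℕ) : Matrix (Gen n) (Gen n) ℝ :=
  (diff n).transpose * diff n + diff n * (diff n).transpose

/-- The basis vectors of bidegree `(k, j)`. -/
abbrev Bideg (n k : ℕ) (j : ℤ) := {g : Gen n // hdeg g.1 = k ∧ qdeg g.1 = j}

instance (n k : ℕ) (j : ℤ) : Finite (Bideg n k j) := Subtype.finite

noncomputable instance (n k : ℕ) (j : ℤ) : Fintype (Bideg n k j) := Fintype.ofFinite _

/-- The block `L_{(k, j)}` of the Laplacian. -/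
noncomputable def lapBlock (n k : ℕ) (j : ℤ) : Matrix (Bideg n k j) (Bideg n k j) ℝ :=
  (lap n).submatrix Subtype.val Subtype.val

/-- `g` is the gap of `M`: its smallest nonzero eigenvalue. -/
def IsGap {ι : Type} [Fintype ι] (M : Matrix ι ι ℝ) (g : ℝ) : Prop :=
  IsLeast {μ : ℝ | μ ≠ 0 ∧ ∃ x : ι → ℝ, x ≠ 0 ∧ M.mulVec x = μ • x} g

end Pool.Agent.R804.TU
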