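import Pool.Agent.R804.TU.Gap

/-!
# The eigenvector in bidegree `(0, 3 - n)`
-/

set_option autoImplicit false

namespace Pool.Agent.R804.TU

open Finset Real

theorem JJ_ff0 (G : Circ → Circ → ℝ) : JJ (0, false) (0, false) G = 0 := by
  rw [JJ_ff]; simp

theorem JJ_ft0 (G : Circ → Circ → ℝ) :
    JJ (0, false) (0, true) G = G (0, false) (0, true) + G (0, true) (0, false) := by
  rw [JJ_ft]; simp

theorem JJ_tf0 (G : Circ → Circ → ℝ) :
    JJ (0, true) (0, false) G = G (0, true) (0, false) + G (0, false) (0, true) := by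
  rw [JJ_tf]; simp

theorem LL_cons2 (f : Fn) (β γ : Circ) (w : List Circ) :
    LL f (β :: γ :: w) = LL (fun u => f (β :: u)) (γ :: w) + 2 * half β * f (β :: γ :: w)
      + JJ β γ (fun x y => f (x :: y :: w)) := LL_cons f β (γ :: w)

theorem LL_sing (f : Fn) (b : Bool) : LL f [(0, b)] = 0 := by
  rw [LL_cons, LL_nil]; cases b <;> simp [half]

theorem half0 (b : Bool) : half (0, b) = 0 := by cases b <;> simp [half]

theorem LL_const_Xs (k : ℝ) (j : ℕ) : LL (fun _ => k) (Xs j) = 0 := by
  induction j with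
  | zero => exact LL_nil _
  | succ j ih =>
    rcases j with _ | j
    · exact LL_sing _ _
    · rw [Xs_succ, Xs_succ, LL_cons2, JJ_ff0, half0, ← Xs_succ, ih]; ring

theorem LL_OO (h : ℕ → ℝ) (i j : ℕ) : ∀ p,
    LL (OO h p) (Xs i ++ (0, true) :: Xs j)
      = (if 0 < i then h (p + i) + h (p + i - 1) else 0)
        + (if 0 < j then h (p + i) + h (p + i + 1) else 0) := by
  induction i with
  | zero =>
    intro p
    rw [Xs_zero, List.nil_append]
    rcases j with _ | j
    · rw [Xs_zero, LL_sing]; simp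
    · rw [Xs_succ, LL_cons2, JJ_tf0, half0]
      have : (fun u => OO h p ((0, true) :: u)) = fun _ => h p := by
        funext u; simp [OO]
      rw [this, ← Xs_succ, LL_const_Xs]
      simp [OO]
  | succ i ih =>
    intro p
    have hl : (fun u => OO h p ((0, false) :: u)) = OO h (p + 1) := by
      funext u; simp [OO]
    rcases i with _ | i
    · rw [Xs_succ, Xs_zero, List.cons_append, List.nil_append, LL_cons2, JJ_ft0, half0, hl]
      have h1 := ih (p + 1)
      rw [Xs_zero, List.nil_append] at h1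
      rw [h1]
      simp [OO]
      ring
    · rw [Xs_succ, Xs_succ, List.cons_append, List.cons_append, LL_cons2, JJ_ff0, half0, hl]
      have h1 := ih (p + 1)
      rw [Xs_succ, List.cons_append] at h1
      rw [h1]
      simp only [Nat.zero_lt_succ, if_true]
      rw [show p + 1 + (i + 1) = p + (i + 1 + 1) by ring]
      ring

/-- The value of `H` at the positions of the first two labels `𝟏`. -/
noncomputable def FF (H : ℕ → ℕ → ℝ) : ℕ → List Circ → ℝ
  | _, [] => 0
  | p, β :: w => if β.2 then OO (H p) (p + 1) w else FF H (p + 1) w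

theorem FF_Xs (H : ℕ → ℕ → ℝ) (a c : ℕ) (w : List Circ) : ∀ p,
    FF H p (Xs a ++ (0, true) :: (Xs c ++ (0, true) :: w)) = H (p + a) (p + a + 1 + c) := by
  induction a with
  | zero =>
    intro p
    rw [Xs_zero, List.nil_append]
    simp only [FF, if_true, OO_Xs, add_zero]
  | succ a ih =>
    intro p
    rw [Xs_succ, List.cons_append]
    simp only [FF, Bool.false_eq_true, if_false]
    rw [ih]
    rw [show p + 1 + a = p + (a + 1) by ring]

theorem LL_FF (H : ℕ → ℕ → ℝ) (a c e : ℕ) : ∀ p,
    LL (FF H p) (Xs a ++ (0, true) :: (Xs c ++ (0, true) :: Xs e))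
      = (if 0 < a then H (p + a) (p + a + 1 + c) + H (p + a - 1) (p + a + 1 + c) else 0)
        + (if 0 < c then H (p + a) (p + a + 1 + c) + H (p + a + 1) (p + a + 1 + c)
            else H (p + a) (p + a + 1 + c))
        + (if 0 < c then H (p + a) (p + a + 1 + c) + H (p + a) (p + a + c) else 0)
        + (if 0 < e then H (p + a) (p + a + 1 + c) + H (p + a) (p + a + 1 + c + 1) else 0) := by
  induction a with
  | zero =>
    intro p
    rw [Xs_zero, List.nil_append]
    have hl : (fun u => FF H p ((0, true) :: u)) = OO (H p) (p + 1) := by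
      funext u; simp [FF]
    rcases c with _ | c
    · rw [Xs_zero, List.nil_append, LL_cons2, JJ_tt, half0, hl]
      have h1 := LL_OO (H p) 0 e (p + 1)
      rw [Xs_zero, List.nil_append] at h1
      rw [h1]
      simp [FF, OO]
      ring
    · rw [Xs_succ, List.cons_append, LL_cons2, JJ_tf0, half0, hl]
      have h1 := LL_OO (H p) (c + 1) e (p + 1)
      rw [Xs_succ, List.cons_append] at h1
      rw [h1]
      have e1 : FF H p ((0, true) :: (0, false) :: (Xs c ++ (0, true) :: Xs e))
          = H p (p + 0 + 1 + (c + 1)) := by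
        simp only [FF, OO, if_true, Bool.false_eq_true, if_false]
        rw [OO_Xs]; congr 1; ring
      have e2 : FF H p ((0, false) :: (0, true) :: (Xs c ++ (0, true) :: Xs e))
          = H (p + 0 + 1) (p + 0 + 1 + (c + 1)) := by
        simp only [FF, Bool.false_eq_true, if_false, if_true]
        rw [OO_Xs]; congr 1; ring
      rw [e1, e2]
      simp only [Nat.zero_lt_succ, if_true, Nat.lt_irrefl, if_false, add_zero]
      rw [show p + 1 + (c + 1) - 1 = p + (c + 1) by omega]
      ring
  | succ a ih =>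
    intro p
    have hl : (fun u => FF H p ((0, false) :: u)) = FF H (p + 1) := by
      funext u; simp [FF]
    rcases a with _ | a
    · rw [Xs_succ, Xs_zero, List.cons_append, List.nil_append, LL_cons2, JJ_ft0, half0, hl]
      have h1 := ih (p + 1)
      rw [Xs_zero, List.nil_append] at h1
      rw [h1]
      have e1 : FF H p ((0, false) :: (0, true) :: (Xs c ++ (0, true) :: Xs e))
          = H (p + (0 + 1)) (p + (0 + 1) + 1 + c) := by
        simp only [FF, Bool.false_eq_true, if_false, if_true]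
        rw [OO_Xs]
      have e2 : FF H p ((0, true) :: (0, false) :: (Xs c ++ (0, true) :: Xs e))
          = H (p + (0 + 1) - 1) (p + (0 + 1) + 1 + c) := by
        simp only [FF, OO, if_true, Bool.false_eq_true, if_false]
        rw [OO_Xs]; congr 1
      rw [e1, e2]
      simp only [Nat.zero_lt_succ, if_true, Nat.lt_irrefl, if_false, add_zero, zero_add]
      ring
    · rw [Xs_succ, Xs_succ, List.cons_append, List.cons_append, LL_cons2, JJ_ff0, half0, hl]
      have h1 := ih (p + 1)
      rw [Xs_succ, List.cons_append] at h1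
      rw [h1]
      simp only [Nat.zero_lt_succ, if_true]
      rw [show p + 1 + (a + 1) = p + (a + 1 + 1) by ring]
      ring

/-- The amplitudes of the eigenvector. -/
noncomputable def HH (C : ℕ → ℝ) (a b : ℕ) : ℝ := (-1) ^ (a + b) * (C a - C (b + 1))

theorem cp_refl {x : ℝ} {M : ℕ} (hx : x = M) (h : 0 < M) : cp x (M - 1) = cp x M := by
  unfold cp
  have hM : (M : ℝ) ≠ 0 := by positivity
  have e1 : π * (2 * ((M - 1 : ℕ) : ℝ) + 1) / (2 * x) = π - π / (2 * M) := by
    rw [hx, Nat.cast_sub (by omega)]; push_cast; field_simp; ring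
  have e2 : π * (2 * (M : ℝ) + 1) / (2 * x) = π + π / (2 * M) := by
    rw [hx]; field_simp
  rw [e1, e2, cos_pi_sub, add_comm π, cos_add_pi]

theorem HH_eq (C : ℕ → ℝ) (ρ : ℝ) (a c e : ℕ)
    (hrec : ∀ i, C i + C (i + 2) = (2 - ρ) * C (i + 1)) (h01 : C 0 - C 1 = ρ * C 0)
    (hend : C (a + c + e + 2) = C (a + c + e + 3)) :
    LL (FF (HH C) 0) (Xs a ++ (0, true) :: (Xs c ++ (0, true) :: Xs e))
      = ρ * HH C a (a + 1 + c) := by
  rw [LL_FF]
  -- the signs
  have hs : (-1 : ℝ) ^ (a + (a + 1 + c)) = (-1) ^ (c + 1) := by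
    rw [show a + (a + 1 + c) = 2 * a + (c + 1) by ring, pow_add, pow_mul]; norm_num
  have hAB : HH C (0 + a) (0 + a + 1 + c) = (-1) ^ (c + 1) * (C a - C (a + c + 2)) := by
    unfold HH
    rw [zero_add, hs, show a + 1 + c + 1 = a + c + 2 by ring]
  have hAB' : HH C a (a + 1 + c) = (-1) ^ (c + 1) * (C a - C (a + c + 2)) := by
    unfold HH
    rw [hs, show a + 1 + c + 1 = a + c + 2 by ring]
  have h1 : 0 < a → HH C (0 + a - 1) (0 + a + 1 + c)
      = - ((-1) ^ (c + 1) * (C (a - 1) - C (a + c + 2))) := by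
    intro ha
    obtain ⟨a', rfl⟩ : ∃ a', a = a' + 1 := ⟨a - 1, by omega⟩
    unfold HH
    have hp : (-1 : ℝ) ^ (a' + (a' + 1 + 1 + c)) = - (-1) ^ (c + 1) := by
      rw [show a' + (a' + 1 + 1 + c) = 2 * a' + (c + 1) + 1 by ring, pow_succ, pow_add, pow_mul]
      norm_num
    rw [zero_add, show a' + 1 - 1 = a' by omega, hp,
      show a' + 1 + 1 + c + 1 = a' + 1 + c + 2 by ring]
    ring
  have h2 : HH C (0 + a + 1) (0 + a + 1 + c)
      = - ((-1) ^ (c + 1) * (C (a + 1) - C (a + c + 2))) := by
    unfold HH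
    have hp : (-1 : ℝ) ^ (a + 1 + (a + 1 + c)) = - (-1) ^ (c + 1) := by
      rw [show a + 1 + (a + 1 + c) = 2 * a + (c + 1) + 1 by ring, pow_succ, pow_add, pow_mul]
      norm_num
    rw [zero_add, hp, show a + 1 + c + 1 = a + c + 2 by ring]
    ring
  have h3 : HH C (0 + a) (0 + a + c) = - ((-1) ^ (c + 1) * (C a - C (a + c + 1))) := by
    unfold HH
    have hp : (-1 : ℝ) ^ (a + (a + c)) = - (-1) ^ (c + 1) := by
      rw [show a + (a + c) = 2 * a + c by ring, pow_add, pow_mul, pow_succ (-1 : ℝ) c]
      norm_num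
    rw [zero_add, hp]
    ring
  have h4 : HH C (0 + a) (0 + a + 1 + c + 1) = - ((-1) ^ (c + 1) * (C a - C (a + c + 3))) := by
    unfold HH
    have hp : (-1 : ℝ) ^ (a + (a + 1 + c + 1)) = - (-1) ^ (c + 1) := by
      rw [show a + (a + 1 + c + 1) = 2 * a + (c + 1) + 1 by ring, pow_succ, pow_add, pow_mul]
      norm_num
    rw [zero_add, hp, show a + 1 + c + 1 + 1 = a + c + 3 by ring]
    ring
  have r1 : 0 < a → C (a - 1) + C (a + 1) = (2 - ρ) * C a := by
    intro ha
    obtain ⟨a', rfl⟩ : ∃ a', a = a' + 1 := ⟨a - 1, by omega⟩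
    have := hrec a'
    rw [show a' + 1 - 1 = a' by omega, show a' + 1 + 1 = a' + 2 by ring]
    exact this
  have r2 : C (a + c + 1) + C (a + c + 3) = (2 - ρ) * C (a + c + 2) := by
    have := hrec (a + c + 1)
    rw [show a + c + 1 + 2 = a + c + 3 by ring, show a + c + 1 + 1 = a + c + 2 by ring] at this
    exact this
  have hA : (if 0 < a then HH C (0 + a) (0 + a + 1 + c) + HH C (0 + a - 1) (0 + a + 1 + c) else 0)
      = (-1) ^ (c + 1) * (ρ * C a - C a + C (a + 1)) := by
    split_ifs with ha
    · rw [hAB, h1 ha]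
      have := r1 ha
      linear_combination (-(-1 : ℝ) ^ (c + 1)) * this
    · have : a = 0 := by omega
      subst this
      rw [zero_add]
      linear_combination (-1 : ℝ) ^ (c + 1) * h01
  have hE : (if 0 < e then HH C (0 + a) (0 + a + 1 + c) + HH C (0 + a) (0 + a + 1 + c + 1) else 0)
      = (-1) ^ (c + 1) * (C (a + c + 2) - ρ * C (a + c + 2) - C (a + c + 1)) := by
    split_ifs with he
    · rw [hAB, h4]
      linear_combination ((-1 : ℝ) ^ (c + 1)) * r2
    · have : e = 0 := by omega
      subst this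
      have he' : C (a + c + 2) = C (a + c + 3) := hend
      have : C (a + c + 2) - ρ * C (a + c + 2) - C (a + c + 1) = 0 := by
        rw [← he'] at r2
        linear_combination -r2
      rw [this, mul_zero]
  rw [hA, hE, hAB', h2, h3, hAB]
  rcases Nat.eq_zero_or_pos c with hc | hc
  · subst hc
    simp only [Nat.lt_irrefl, if_false, add_zero, zero_add]
    ring
  · rw [if_pos hc, if_pos hc]
    ring

end Pool.Agent.R804.TU
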