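import Pool.Agent.R804.TU.Bound

/-!
# Local energies
-/

set_option autoImplicit false

namespace Pool.Agent.R804.TU

open Finset

/-- The number of circles with label `𝟏`. -/
def ones : List Circ → ℕ
  | [] => 0
  | β :: w => (if β.2 then 1 else 0) + ones w

theorem hdeg_cons (β : Circ) (w : List Circ) : hdeg (β :: w) = β.1 + hdeg w := by simp [hdeg]
theorem hdeg_nil : hdeg [] = 0 := rfl
theorem ones_cons (β : Circ) (w : List Circ) :
    ones (β :: w) = (if β.2 then 1 else 0) + ones w := rfl
theorem ones_nil : ones [] = 0 := rfl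

/-- Two lists have the same type. -/
def ST (u w : List Circ) : Prop := u.length = w.length ∧ hdeg u = hdeg w ∧ ones u = ones w

theorem ST.refl (u : List Circ) : ST u u := ⟨rfl, rfl, rfl⟩

theorem size_eq (w : List Circ) : size w = w.length + hdeg w := by
  induction w with
  | nil => rfl
  | cons β w ih => rw [size_cons, hdeg_cons, ih, List.length_cons]; ring

/-- `1` for the label `𝟏`, `0` for `X`. -/
def lab (β : Circ) : ℕ := if β.2 then 1 else 0

theorem PP_mono (β γ : Circ) (G H : Circ → Circ → ℝ)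
    (h : ∀ x y : Circ, x.1 + y.1 = β.1 + γ.1 → lab x + lab y = lab β + lab γ → G x y ≤ H x y) :
    PP β γ G ≤ PP β γ H := by
  obtain ⟨m, a⟩ := β
  obtain ⟨m', a'⟩ := γ
  cases a <;> cases a' <;> simp only [PP]
  · apply add_le_add
    · apply Finset.sum_le_sum
      intro a ha
      have := Finset.mem_range.1 ha
      apply h <;> simp [lab]
      omega
    · apply Finset.sum_le_sum
      intro a ha
      have := Finset.mem_range.1 ha
      apply h <;> simp [lab]
      omega
  · apply Finset.sum_le_sum
    intro a ha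
    have := Finset.mem_range.1 ha
    apply h <;> simp [lab]
    omega
  · apply Finset.sum_le_sum
    intro a ha
    have := Finset.mem_range.1 ha
    apply h <;> simp [lab]
    omega
  · exact le_refl _

theorem PP_congr (β γ : Circ) (G H : Circ → Circ → ℝ)
    (h : ∀ x y : Circ, x.1 + y.1 = β.1 + γ.1 → lab x + lab y = lab β + lab γ → G x y = H x y) :
    PP β γ G = PP β γ H :=
  le_antisymm (PP_mono _ _ _ _ fun x y h1 h2 => (h x y h1 h2).le)
    (PP_mono _ _ _ _ fun x y h1 h2 => (h x y h1 h2).ge)

theorem PP_add (β γ : Circ) (G H : Circ → Circ → ℝ) :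
    PP β γ (fun x y => G x y + H x y) = PP β γ G + PP β γ H := by
  obtain ⟨m, a⟩ := β
  obtain ⟨m', a'⟩ := γ
  cases a <;> cases a' <;> simp only [PP, Finset.sum_add_distrib] <;> ring

theorem PP_smul (β γ : Circ) (c : ℝ) (G : Circ → Circ → ℝ) :
    PP β γ (fun x y => c * G x y) = c * PP β γ G := by
  obtain ⟨m, a⟩ := β
  obtain ⟨m', a'⟩ := γ
  cases a <;> cases a' <;> simp only [PP, ← Finset.mul_sum] <;> ring

theorem ST_cons_cons {β γ x y : Circ} {w : List Circ} (h1 : x.1 + y.1 = β.1 + γ.1)
    (h2 : lab x + lab y = lab β + lab γ) : ST (x :: y :: w) (β :: γ :: w) := by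
  refine ⟨by simp, ?_, ?_⟩
  · rw [hdeg_cons, hdeg_cons, hdeg_cons, hdeg_cons]; omega
  · rw [ones_cons, ones_cons, ones_cons, ones_cons]
    unfold lab at h2; omega

theorem ST_cons {β : Circ} {u w : List Circ} (h : ST u w) : ST (β :: u) (β :: w) := by
  obtain ⟨h1, h2, h3⟩ := h
  refine ⟨by simp [h1], ?_, ?_⟩
  · rw [hdeg_cons, hdeg_cons, h2]
  · rw [ones_cons, ones_cons, h3]

theorem NS_mono (w : List Circ) (f g : Fn) (h : ∀ u, ST u w → f u ≤ g u) :
    NS f w ≤ NS g w := by
  induction w generalizing f g with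
  | nil => exact le_refl _
  | cons β w ih =>
    rcases w with _ | ⟨γ, w⟩
    · exact le_refl _
    · simp only [NS]
      apply add_le_add
      · apply PP_mono
        intro x y h1 h2
        exact h _ (ST_cons_cons h1 h2)
      · apply ih
        intro u hu
        exact h _ (ST_cons hu)

/-- The share of the diagonal of two consecutive circles. -/
noncomputable def share (β γ : Circ) : ℝ := pd β γ + half β + half γ

/-- The sum of the local energies of the pairs of consecutive circles. -/
noncomputable def Eg : Fn → List Circ → ℝ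
  | _, [] => 0
  | _, [_] => 0
  | f, β :: γ :: w => (share β γ * f (β :: γ :: w) - PP β γ (fun x y => f (x :: y :: w)))
      + Eg (fun u => f (β :: u)) (γ :: w)

/-- The share of the left wall. -/
noncomputable def hf : List Circ → ℝ
  | [] => 0
  | β :: _ => half β

/-- The share of the right wall. -/
noncomputable def hl : List Circ → ℝ
  | [] => 0
  | [β] => half β
  | _ :: γ :: w => hl (γ :: w)

theorem DD_NS (f : Fn) (w : List Circ) :
    DD w * f w - NS f w = Eg f w + (hf w + hl w) * f w := by
  induction w generalizing f with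
  | nil => simp [DD, NS, Eg, hf, hl]
  | cons β w ih =>
    rcases w with _ | ⟨γ, w⟩
    · simp only [DD, NS, Eg, hf, hl]; ring
    · have := ih (fun u => f (β :: u))
      simp only [DD, NS, Eg, hf, hl] at this ⊢
      unfold share
      linear_combination this

theorem Eg_congr (w : List Circ) (f g : Fn) (h : ∀ u, ST u w → f u = g u) :
    Eg f w = Eg g w := by
  induction w generalizing f g with
  | nil => rfl
  | cons β w ih =>
    rcases w with _ | ⟨γ, w⟩
    · rfl
    · simp only [Eg]
      rw [h _ (ST.refl _)]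
      congr 1
      · congr 1
        apply PP_congr
        intro x y h1 h2
        exact h _ (ST_cons_cons h1 h2)
      · apply ih
        intro u hu
        exact h _ (ST_cons hu)

theorem Eg_add (f g : Fn) (w : List Circ) : Eg (fun u => f u + g u) w = Eg f w + Eg g w := by
  induction w generalizing f g with
  | nil => simp [Eg]
  | cons β w ih =>
    rcases w with _ | ⟨γ, w⟩
    · simp [Eg]
    · simp only [Eg]
      rw [ih, PP_add]; ring

theorem Eg_smul (c : ℝ) (f : Fn) (w : List Circ) : Eg (fun u => c * f u) w = c * Eg f w := by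
  induction w generalizing f with
  | nil => simp [Eg]
  | cons β w ih =>
    rcases w with _ | ⟨γ, w⟩
    · simp [Eg]
    · simp only [Eg]
      rw [ih, PP_smul]; ring

/-! ### The bulk weight -/

/-- The factor of a circle in the bulk weight. -/
noncomputable def co (β : Circ) : ℝ := if β.2 then (β.1 : ℝ) + 1 else 1

/-- The bulk weight. -/
noncomputable def om : Fn
  | [] => 1
  | β :: w => co β * om w

theorem om_cons (β : Circ) (w : List Circ) : om (β :: w) = co β * om w := rfl
theorem om_nil : om [] = 1 := rfl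

theorem co_pos (β : Circ) : 0 < co β := by unfold co; split_ifs <;> positivity

theorem co_ge (β : Circ) : 1 ≤ co β := by
  unfold co; split_ifs
  · have : (0 : ℝ) ≤ β.1 := Nat.cast_nonneg _
    linarith
  · exact le_refl _

theorem om_pos (w : List Circ) : 0 < om w := by
  induction w with
  | nil => simp [om]
  | cons β w ih => rw [om_cons]; exact mul_pos (co_pos β) ih

theorem sum_lin (c : ℝ) (K : ℕ) :
    ∑ a ∈ range K, (c - a) = K * c - K * (K - 1) / 2 := by
  induction K with
  | zero => simp
  | succ K ih => rw [Finset.sum_range_succ, ih]; push_cast; ring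

theorem sum_lin' (c : ℝ) (K : ℕ) :
    ∑ a ∈ range K, (c + a) = K * c + K * (K - 1) / 2 := by
  induction K with
  | zero => simp
  | succ K ih => rw [Finset.sum_range_succ, ih]; push_cast; ring

theorem pair_om (β γ : Circ) (h : ¬ (β.2 = true ∧ γ.2 = true)) :
    share β γ * (co β * co γ) - PP β γ (fun x y => co x * co y) = 0 := by
  obtain ⟨m, a⟩ := β
  obtain ⟨m', a'⟩ := γ
  cases a <;> cases a' <;> simp only [PP, share, pd, half, co, Bool.or_self, Bool.or_true,
    Bool.true_or, if_true, Bool.false_eq_true, if_false]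
  · simp
  · have : ∀ b ∈ range (m' + 1), (((m + b : ℕ) : ℝ) + 1) * 1 = ((m : ℝ) + 1) + b := by
      intro b _; push_cast; ring
    rw [Finset.sum_congr rfl this, sum_lin']
    push_cast; ring
  · have : ∀ a ∈ range (m + 1), (1 : ℝ) * (((m + m' - a : ℕ) : ℝ) + 1) = ((m : ℝ) + m' + 1) - a := by
      intro a ha
      have := Finset.mem_range.1 ha
      rw [Nat.cast_sub (by omega)]; push_cast; ring
    rw [Finset.sum_congr rfl this, sum_lin]
    push_cast; ring
  · exfalso; exact h ⟨rfl, rfl⟩

theorem half_nonneg (β : Circ) : 0 ≤ half β := by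
  unfold half; split_ifs <;> positivity

theorem pd_nonneg (β γ : Circ) : 0 ≤ pd β γ := by
  unfold pd; split_ifs <;> norm_num

theorem share_nonneg (β γ : Circ) : 0 ≤ share β γ := by
  unfold share
  have := half_nonneg β
  have := half_nonneg γ
  have := pd_nonneg β γ
  linarith

theorem PP_tt (β γ : Circ) (h : β.2 = true ∧ γ.2 = true) (G : Circ → Circ → ℝ) :
    PP β γ G = 0 := by
  obtain ⟨m, a⟩ := β
  obtain ⟨m', a'⟩ := γ
  obtain ⟨h1, h2⟩ := h
  simp only at h1 h2
  subst h1 h2
  rfl

theorem pair_om_nonneg (β γ : Circ) :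
    0 ≤ share β γ * (co β * co γ) - PP β γ (fun x y => co x * co y) := by
  by_cases h : β.2 = true ∧ γ.2 = true
  · rw [PP_tt _ _ h, sub_zero]
    exact mul_nonneg (share_nonneg _ _) (mul_pos (co_pos _) (co_pos _)).le
  · rw [pair_om _ _ h]

theorem pair_om_list (β γ : Circ) (w : List Circ) :
    share β γ * om (β :: γ :: w) - PP β γ (fun x y => om (x :: y :: w))
      = (share β γ * (co β * co γ) - PP β γ (fun x y => co x * co y)) * om w := by
  have : PP β γ (fun x y => om (x :: y :: w)) = om w * PP β γ (fun x y => co x * co y) := by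
    rw [← PP_smul]
    apply PP_congr
    intro x y _ _
    rw [om_cons, om_cons]; ring
  rw [this, om_cons, om_cons]; ring

theorem Eg_om_nonneg (w : List Circ) : 0 ≤ Eg om w := by
  induction w with
  | nil => simp [Eg]
  | cons β w ih =>
    rcases w with _ | ⟨γ, w⟩
    · simp [Eg]
    · simp only [Eg]
      apply add_nonneg
      · rw [pair_om_list]
        exact mul_nonneg (pair_om_nonneg _ _) (om_pos _).le
      · have : (fun u => om (β :: u)) = fun u => co β * om u := by funext u; rfl
        rw [this, Eg_smul]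
        exact mul_nonneg (co_pos _).le ih

/-! ### The edge energy -/

/-- The sum of `s` over the `m` positions after `p`. -/
noncomputable def TT (s : ℕ → ℝ) (p m : ℕ) : ℝ := ∑ i ∈ range m, s (p + 1 + i)

/-- The position after a circle. -/
def nx (p : ℕ) (β : Circ) : ℕ := if β.2 then p + β.1 + 2 else p + β.1 + 1

/-- The contribution of a circle to the edge weight. -/
noncomputable def own (s : ℕ → ℝ) (p : ℕ) (β : Circ) : ℝ :=
  if β.2 then β.1 * TT s p (β.1 + 1) else TT s p β.1

/-- The edge weight. -/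
noncomputable def V (s : ℕ → ℝ) : ℕ → List Circ → ℝ
  | _, [] => 0
  | p, β :: w => co β * V s (nx p β) w + om w * own s p β

theorem V_cons (s : ℕ → ℝ) (p : ℕ) (β : Circ) (w : List Circ) :
    V s p (β :: w) = co β * V s (nx p β) w + om w * own s p β := rfl

/-- The left energy of a circle. -/
noncomputable def LS (s : ℕ → ℝ) (p : ℕ) (β : Circ) : ℝ :=
  if β.2 then (β.1 : ℝ) / 2 * (TT s p (β.1 + 1) - (β.1 + 1) * s p)
  else TT s p β.1 - β.1 * s p

/-- The right energy of a circle. -/
noncomputable def RS (s : ℕ → ℝ) (p : ℕ) (β : Circ) : ℝ :=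
  if β.2 then (β.1 : ℝ) / 2 * (TT s p (β.1 + 1) - (β.1 + 1) * s (nx p β))
  else TT s p β.1 - β.1 * s (nx p β)

/-- Cumulative sums. -/
noncomputable def SS (s : ℕ → ℝ) (x : ℕ) : ℝ := ∑ i ∈ range x, s (i + 1)

theorem TT_eq (s : ℕ → ℝ) (p m : ℕ) : TT s p m = SS s (p + m) - SS s p := by
  unfold TT SS
  rw [Finset.sum_range_add]
  have : ∀ i ∈ range m, s (p + 1 + i) = s (p + i + 1) := by
    intro i _; congr 1; ring
  rw [Finset.sum_congr rfl this]; ring

theorem SS_succ (s : ℕ → ℝ) (x : ℕ) : SS s (x + 1) = SS s x + s (x + 1) := by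
  unfold SS; rw [Finset.sum_range_succ]

theorem tele1 (F : ℕ → ℝ) (A B c : ℝ) (K : ℕ) :
    ∑ a ∈ range K, ((c - a) * (A - F (a + 1)) + (c - a + 1) * (F a - B))
      = A * (K * c - K * (K - 1) / 2) - B * (K * (c + 1) - K * (K - 1) / 2)
        + (c + 1) * F 0 - (c - K + 1) * F K := by
  induction K with
  | zero => simp
  | succ K ih => rw [Finset.sum_range_succ, ih]; push_cast; ring

theorem tele2 (F : ℕ → ℝ) (A B c : ℝ) (K : ℕ) :
    ∑ a ∈ range K, ((c + a + 1) * (A - F (a + 1)) + (c + a) * (F a - B))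
      = A * (K * (c + 1) + K * (K - 1) / 2) - B * (K * c + K * (K - 1) / 2)
        + c * F 0 - (c + K) * F K := by
  induction K with
  | zero => simp
  | succ K ih => rw [Finset.sum_range_succ, ih]; push_cast; ring

theorem pair_own (s : ℕ → ℝ) (p : ℕ) (β γ : Circ) (h : ¬ (β.2 = true ∧ γ.2 = true)) :
    share β γ * (co β * own s (nx p β) γ + co γ * own s p β)
      - PP β γ (fun x y => co x * own s (nx p x) y + co y * own s p x)
      = co γ * RS s p β + co β * LS s (nx p β) γ := by
  obtain ⟨m, a⟩ := β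
  obtain ⟨m', a'⟩ := γ
  cases a <;> cases a' <;> simp only [PP, share, pd, half, co, own, RS, LS, nx, Bool.or_self,
    Bool.or_true, Bool.true_or, if_true, Bool.false_eq_true, if_false]
  · -- X X
    have h1 : ∀ a ∈ range m, (1 : ℝ) * TT s (p + a + 1) (m + m' - a) + 1 * TT s p a
        = (SS s (p + m + m' + 1) - SS s p) - s (p + 1 + a) := by
      intro a ha
      have ha' := Finset.mem_range.1 ha
      rw [TT_eq, TT_eq, show p + a + 1 + (m + m' - a) = p + m + m' + 1 by omega,
        SS_succ s (p + a), show p + a + 1 = p + 1 + a by omega]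
      ring
    have h2 : ∀ b ∈ range m', (1 : ℝ) * TT s (p + (m + b + 1) + 1) (m' - 1 - b)
        + 1 * TT s p (m + b + 1)
        = (SS s (p + m + m' + 1) - SS s p) - s (p + m + 1 + 1 + b) := by
      intro b hb
      have hb' := Finset.mem_range.1 hb
      rw [TT_eq, TT_eq, show p + (m + b + 1) + 1 + (m' - 1 - b) = p + m + m' + 1 by omega,
        SS_succ s (p + (m + b + 1)), show p + (m + b + 1) + 1 = p + m + 1 + 1 + b by omega]
      ring
    rw [Finset.sum_congr rfl h1, Finset.sum_congr rfl h2]
    simp only [Finset.sum_sub_distrib]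
    have h3 : ∑ x ∈ range m, s (p + 1 + x) = TT s p m := rfl
    have h4 : ∑ x ∈ range m', s (p + m + 1 + 1 + x) = TT s (p + m + 1) m' := rfl
    rw [h3, h4]
    simp only [Finset.sum_const, Finset.card_range, nsmul_eq_mul]
    rw [TT_eq, TT_eq, show p + m + 1 + m' = p + m + m' + 1 by omega, SS_succ s (p + m)]
    ring
  · -- X 1
    have h1 : ∀ b ∈ range (m' + 1), (((m + b : ℕ) : ℝ) + 1) * TT s (p + (m + b) + 2) (m' - b)
        + 1 * (((m + b : ℕ) : ℝ) * TT s p (m + b + 1))
        = ((m : ℝ) + b + 1) * (SS s (p + m + m' + 2) - SS s (p + m + 1 + (b + 1)))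
          + ((m : ℝ) + b) * (SS s (p + m + 1 + b) - SS s p) := by
      intro b hb
      have hb' := Finset.mem_range.1 hb
      rw [TT_eq, TT_eq, show p + (m + b) + 2 + (m' - b) = p + m + m' + 2 by omega,
        show p + (m + b) + 2 = p + m + 1 + (b + 1) by omega,
        show p + (m + b + 1) = p + m + 1 + b by omega]
      push_cast; ring
    rw [Finset.sum_congr rfl h1,
      tele2 (fun b => SS s (p + m + 1 + b)) (SS s (p + m + m' + 2)) (SS s p) m (m' + 1)]
    rw [TT_eq, TT_eq, show p + m + 1 + (m' + 1) = p + m + m' + 2 by omega,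
      show p + m + 1 + 0 = p + m + 1 by omega, SS_succ s (p + m)]
    push_cast
    ring
  · -- 1 X
    have h1 : ∀ a ∈ range (m + 1), (1 : ℝ) * (((m + m' - a : ℕ) : ℝ)
        * TT s (p + a + 1) (m + m' - a + 1)) + (((m + m' - a : ℕ) : ℝ) + 1) * TT s p a
        = (((m : ℝ) + m') - a) * (SS s (p + m + m' + 2) - SS s (p + (a + 1)))
          + (((m : ℝ) + m') - a + 1) * (SS s (p + a) - SS s p) := by
      intro a ha
      have ha' := Finset.mem_range.1 ha
      rw [TT_eq, TT_eq, show p + a + 1 + (m + m' - a + 1) = p + m + m' + 2 by omega,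
        show p + a + 1 = p + (a + 1) by omega, Nat.cast_sub (by omega)]
      push_cast; ring
    rw [Finset.sum_congr rfl h1,
      tele1 (fun b => SS s (p + b)) (SS s (p + m + m' + 2)) (SS s p) (m + m') (m + 1)]
    rw [TT_eq, TT_eq, show p + m + 2 + m' = p + m + m' + 2 by omega,
      show p + 0 = p by omega, show p + m + 2 = p + (m + 1) + 1 by omega, SS_succ s (p + (m + 1))]
    push_cast
    ring
  · exfalso; exact h ⟨rfl, rfl⟩

theorem nx_nx (p : ℕ) (β γ x y : Circ) (h1 : x.1 + y.1 = β.1 + γ.1)
    (h2 : lab x + lab y = lab β + lab γ) : nx (nx p x) y = nx (nx p β) γ := by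
  unfold lab at h2
  unfold nx
  split_ifs at * <;> omega

theorem V_cons_cons (s : ℕ → ℝ) (p : ℕ) (β γ : Circ) (w : List Circ) :
    V s p (β :: γ :: w) = (co β * co γ) * V s (nx (nx p β) γ) w
      + om w * (co β * own s (nx p β) γ + co γ * own s p β) := by
  rw [V_cons, V_cons, om_cons]; ring

theorem pair_V (s : ℕ → ℝ) (p : ℕ) (β γ : Circ) (w : List Circ)
    (h : ¬ (β.2 = true ∧ γ.2 = true)) :
    share β γ * V s p (β :: γ :: w) - PP β γ (fun x y => V s p (x :: y :: w))
      = om w * (co γ * RS s p β + co β * LS s (nx p β) γ) := by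
  have e : PP β γ (fun x y => V s p (x :: y :: w))
      = V s (nx (nx p β) γ) w * PP β γ (fun x y => co x * co y)
        + om w * PP β γ (fun x y => co x * own s (nx p x) y + co y * own s p x) := by
    rw [← PP_smul, ← PP_smul, ← PP_add]
    apply PP_congr
    intro x y h1 h2
    rw [V_cons_cons, nx_nx p β γ x y h1 h2]
    ring
  rw [e, V_cons_cons, ← pair_own s p β γ h]
  have := pair_om β γ h
  linear_combination (V s (nx (nx p β) γ) w) * this

/-- The last right energy. -/
noncomputable def RL (s : ℕ → ℝ) : ℕ → List Circ → ℝ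
  | _, [] => 0
  | p, [β] => RS s p β
  | p, β :: γ :: w => co β * RL s (nx p β) (γ :: w)

/-- The position after a list. -/
def ep : ℕ → List Circ → ℕ
  | p, [] => p
  | p, β :: w => ep (nx p β) w

theorem ep_eq (p : ℕ) (w : List Circ) : ep p w = p + size w + ones w := by
  induction w generalizing p with
  | nil => simp [ep, size_nil, ones_nil]
  | cons β w ih =>
    rw [ep, ih, size_cons, ones_cons]
    unfold nx
    split_ifs <;> omega

/-- Conditions on the profile `s` up to the position `M`. -/
structure Prof (s : ℕ → ℝ) (ε : ℝ) (M : ℕ) : Prop where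
  nonneg : ∀ i, i ≤ M → 0 ≤ s i
  c1 : ∀ p r, p + r + 1 ≤ M → ε * TT s p r ≤ 2 * TT s p r - r * (s p + s (p + r + 1))
  c2 : ∀ p r, 2 ≤ r → p + r + 1 ≤ M → 2 * ε * TT s p r ≤ 2 * TT s p r - r * (s p + s (p + r + 1))

theorem TT_nonneg {s : ℕ → ℝ} {ε : ℝ} {M : ℕ} (hs : Prof s ε M) (p r : ℕ) (h : p + r ≤ M) :
    0 ≤ TT s p r := by
  apply Finset.sum_nonneg
  intro i hi
  have := Finset.mem_range.1 hi
  exact hs.nonneg _ (by omega)

theorem own_nonneg {s : ℕ → ℝ} {ε : ℝ} {M : ℕ} (hs : Prof s ε M) (p : ℕ) (β : Circ)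
    (h : nx p β ≤ M) : 0 ≤ own s p β := by
  unfold own
  unfold nx at h
  split_ifs at * with hb
  · exact mul_nonneg (Nat.cast_nonneg _) (TT_nonneg hs _ _ (by omega))
  · exact TT_nonneg hs _ _ (by omega)

theorem LS_RS {s : ℕ → ℝ} {ε : ℝ} {M : ℕ} (hs : Prof s ε M) (p : ℕ) (β : Circ)
    (h : nx p β ≤ M) : ε * own s p β ≤ LS s p β + RS s p β := by
  obtain ⟨m, b⟩ := β
  cases b
  · simp only [own, LS, RS, nx, Bool.false_eq_true, if_false] at *
    have := hs.c1 p m (by omega)
    linarith
  · simp only [own, LS, RS, nx, if_true] at *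
    rcases Nat.eq_zero_or_pos m with hm | hm
    · subst hm; simp
    · have := hs.c2 p (m + 1) (by omega) (by omega)
      have hm' : (0 : ℝ) ≤ (m : ℝ) / 2 := by positivity
      have := mul_le_mul_of_nonneg_left this hm'
      push_cast at this
      rw [show p + (m + 1) + 1 = p + m + 2 by omega] at this
      linarith

theorem ep_le_of (p : ℕ) (w : List Circ) : p ≤ ep p w := by rw [ep_eq]; omega

theorem main_ineq {s : ℕ → ℝ} {ε : ℝ} {M : ℕ} (hs : Prof s ε M) (w : List Circ) :
    ∀ (p : ℕ) (β : Circ), ones (β :: w) ≤ 1 → ep p (β :: w) ≤ M →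
      ε * V s p (β :: w) ≤ Eg (V s p) (β :: w) + om w * LS s p β + RL s p (β :: w) := by
  induction w with
  | nil =>
    intro p β h1 h2
    simp only [V, Eg, RL, om_nil]
    have := LS_RS hs p β h2
    linarith
  | cons γ w ih =>
    intro p β h1 h2
    have hM : ep (nx p β) (γ :: w) ≤ M := h2
    have hnx : nx p β ≤ M := (ep_le_of _ _).trans hM
    have h1' : ones (γ :: w) ≤ 1 := by rw [ones_cons] at h1; omega
    have hnb : ¬ (β.2 = true ∧ γ.2 = true) := by
      rintro ⟨hb, hg⟩
      rw [ones_cons, ones_cons, hb, hg] at h1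
      simp at h1
    have hi := ih (nx p β) γ h1' hM
    have hp := pair_V s p β γ w hnb
    have hlin : Eg (fun u => V s p (β :: u)) (γ :: w)
        = co β * Eg (V s (nx p β)) (γ :: w) + own s p β * Eg om (γ :: w) := by
      rw [← Eg_smul, ← Eg_smul, ← Eg_add]
      congr 1
      funext u
      rw [V_cons]; ring
    have ho := own_nonneg hs p β hnx
    have hom := mul_nonneg ho (Eg_om_nonneg (γ :: w))
    have hLR := mul_le_mul_of_nonneg_left (LS_RS hs p β hnx) (om_pos (γ :: w)).le
    have hi' := mul_le_mul_of_nonneg_left hi (co_pos β).le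
    simp only [Eg, RL]
    rw [hp, hlin, V_cons s p β (γ :: w)]
    rw [om_cons] at hLR ⊢
    nlinarith [hi', hLR, hom]

end Pool.Agent.R804.TU
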