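import Pool.Agent.R804.TU.Eig

/-!
# The minimal gap of `TU_n`
-/

set_option autoImplicit false

namespace Pool.Agent.R804.TU

open Finset Real

variable {n : ℕ}

theorem qdeg_eq (w : List Circ) : qdeg w = 2 * ones w + 2 * hdeg w - size w := by
  have h : ∀ w : List Circ, (w.map (fun c => if c.2 then (1 : ℤ) else -1)).sum
      = 2 * ones w - w.length := by
    intro w
    induction w with
    | nil => simp [ones_nil]
    | cons β w ih =>
      rw [List.map_cons, List.sum_cons, ih, ones_cons, List.length_cons]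
      split_ifs <;> push_cast <;> ring
  unfold qdeg
  rw [h, size_eq]; push_cast; ring

/-- Extension of a function on a block by zero. -/
noncomputable def extB (k : ℕ) (j : ℤ) (x : Bideg n k j → ℝ) : Gen n → ℝ :=
  fun g => if h : hdeg g.1 = k ∧ qdeg g.1 = j then x ⟨g, h⟩ else 0

theorem extB_apply (k : ℕ) (j : ℤ) (x : Bideg n k j → ℝ) (g : Bideg n k j) :
    extB k j x g.1 = x g := by
  unfold extB; rw [dif_pos g.2]

theorem extB_mulVec (k : ℕ) (j : ℤ) (x : Bideg n k j → ℝ) (g : Bideg n k j) :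
    (lap n).mulVec (extB k j x) g.1 = (lapBlock n k j).mulVec x g := by
  classical
  have h1 : (lapBlock n k j).mulVec x g = ∑ τ : Bideg n k j, lap n g.1 τ.1 * extB k j x τ.1 := by
    change ∑ τ : Bideg n k j, lapBlock n k j g τ * x τ = _
    apply Finset.sum_congr rfl
    intro τ _
    rw [extB_apply]; rfl
  rw [h1]
  change ∑ τ : Gen n, lap n g.1 τ * extB k j x τ = _
  rw [← Finset.sum_subtype (univ.filter fun τ : Gen n => hdeg τ.1 = k ∧ qdeg τ.1 = j) (by simp)
    (fun τ => lap n g.1 τ * extB k j x τ)]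
  symm
  apply Finset.sum_subset (Finset.subset_univ _)
  intro τ _ hτ
  have : ¬ (hdeg τ.1 = k ∧ qdeg τ.1 = j) := by simpa using hτ
  unfold extB
  rw [dif_neg this, mul_zero]

theorem extB_eig (k : ℕ) (j : ℤ) (x : Bideg n k j → ℝ) (μ : ℝ)
    (h : (lapBlock n k j).mulVec x = μ • x) :
    (lap n).mulVec (extB k j x) = μ • extB k j x := by
  funext g
  by_cases hg : hdeg g.1 = k ∧ qdeg g.1 = j
  · have h1 := extB_mulVec k j x ⟨g, hg⟩
    have h2 := extB_apply k j x ⟨g, hg⟩
    simp only at h1 h2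
    rw [h1, h, Pi.smul_apply, Pi.smul_apply, h2]
  · rw [lap_mulVec, Pi.smul_apply]
    have h2 : extB k j x g = 0 := by unfold extB; rw [dif_neg hg]
    rw [h2, smul_zero]
    apply LL_supp
    intro v hv
    have hs : size v = n + 1 := by
      rw [size_eq, hv.1, hv.2.1, ← size_eq]; exact g.2
    have e : ext (extB k j x) v = extB k j x ⟨v, hs⟩ := ext_apply _ ⟨v, hs⟩
    rw [e]
    unfold extB
    rw [dif_neg]
    rintro ⟨a, b⟩
    apply hg
    simp only at a b
    refine ⟨by rw [← hv.2.1]; exact a, ?_⟩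
    rw [← b, qdeg_eq, qdeg_eq, hv.2.1, hv.2.2, hs, g.2]

theorem extB_ne_zero (k : ℕ) (j : ℤ) (x : Bideg n k j → ℝ) (hx : x ≠ 0) : extB k j x ≠ 0 := by
  intro h
  apply hx
  funext g
  rw [← extB_apply k j x g, h]; rfl

/-- Every nonzero eigenvalue of every block is at least `2 - 2 cos (π / (n + 2))`. -/
theorem block_ge (k : ℕ) (j : ℤ) (μ : ℝ) (hμ : μ ≠ 0) (x : Bideg n k j → ℝ) (hx : x ≠ 0)
    (h : (lapBlock n k j).mulVec x = μ • x) : rate (n + 2) ≤ μ := by
  have hy := extB_ne_zero k j x hx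
  obtain ⟨g0, hg0⟩ : ∃ g0 : Bideg n k j, x g0 ≠ 0 := by
    by_contra hcon
    push Not at hcon
    exact hx (funext hcon)
  refine bound_all k (ones g0.1.1) (extB k j x) hy ?_ μ hμ (extB_eig k j x μ h)
  intro g hg
  unfold extB
  rw [dif_neg]
  rintro ⟨a, b⟩
  apply hg
  refine ⟨a, ?_⟩
  have h1 := g0.2.1
  have h2 := g0.2.2
  rw [qdeg_eq, h1, g0.1.2] at h2
  rw [qdeg_eq, a, g.2] at b
  omega

theorem eq_Xs_two (w : List Circ) (h1 : hdeg w = 0) (h2 : ones w = 2) :
    ∃ a c e, w = Xs a ++ (0, true) :: (Xs c ++ (0, true) :: Xs e) := by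
  induction w with
  | nil => simp [ones_nil] at h2
  | cons β w ih =>
    rw [hdeg_cons] at h1
    rw [ones_cons] at h2
    obtain ⟨m, b⟩ := β
    have hm : m = 0 := by simp at h1; omega
    cases b
    · obtain ⟨a, c, e, hij⟩ := ih (by omega) (by simpa using h2)
      exact ⟨a + 1, c, e, by rw [hij, hm]; rfl⟩
    · obtain ⟨i, j, hj⟩ := eq_Xs_one w (by omega) (by simp at h2; omega)
      exact ⟨0, i, j, by rw [hj, hm]; rfl⟩

theorem ones_Xs (j : ℕ) : ones (Xs j) = 0 := by
  induction j with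
  | zero => rfl
  | succ j ih => rw [Xs_succ, ones_cons, ih]; rfl

theorem hdeg_Xs (j : ℕ) : hdeg (Xs j) = 0 := by
  induction j with
  | zero => rfl
  | succ j ih => rw [Xs_succ, hdeg_cons, ih]

/-- `2 - 2 cos (π / (n + 2))` is an eigenvalue of the block of bidegree `(0, 3 - n)`. -/
theorem eigenvector (hn : 1 ≤ n) : ∃ x : Bideg n 0 (3 - n) → ℝ, x ≠ 0 ∧
    (lapBlock n 0 (3 - n)).mulVec x = rate (n + 2) • x := by
  set C : ℕ → ℝ := cp (n + 2) with hC
  have hx0 : ((n : ℝ) + 2) ≠ 0 := by positivity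
  refine ⟨fun g => FF (HH C) 0 g.1.1, ?_, ?_⟩
  · intro h
    have hsz : size ((0, true) :: (0, true) :: Xs (n - 1)) = n + 1 := by
      rw [size_cons, size_cons, size_Xs]; simp; omega
    have hhd : hdeg ((0, true) :: (0, true) :: Xs (n - 1)) = 0 := by
      rw [hdeg_cons, hdeg_cons, hdeg_Xs]; rfl
    have hqd : qdeg ((0, true) :: (0, true) :: Xs (n - 1)) = 3 - n := by
      rw [qdeg_eq, hsz, hhd, ones_cons, ones_cons, ones_Xs]; push_cast; simp; ring
    have h1 := congrFun h ⟨⟨_, hsz⟩, hhd, hqd⟩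
    have h2 : FF (HH C) 0 ((0, true) :: (0, true) :: Xs (n - 1)) = - (C 0 - C 2) := by
      simp only [FF, OO, if_true, HH]
      norm_num
    simp only [Pi.zero_apply] at h1
    rw [h2] at h1
    have h3 : C 2 < C 0 := by
      rw [hC]
      unfold cp
      have hn' : (1 : ℝ) ≤ n := by exact_mod_cast hn
      apply strictAntiOn_cos
      · constructor
        · positivity
        · rw [div_le_iff₀ (by positivity)]
          push_cast
          nlinarith [pi_pos]
      · constructor
        · positivity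
        · rw [div_le_iff₀ (by positivity)]
          push_cast
          nlinarith [pi_pos]
      · apply div_lt_div_of_pos_right _ (by positivity)
        push_cast
        nlinarith [pi_pos]
    linarith
  · funext g
    rw [← extB_mulVec, lap_mulVec, Pi.smul_apply, smul_eq_mul]
    have hh := g.2.1
    have hones : ones g.1.1 = 2 := by
      have h2 := g.2.2
      rw [qdeg_eq, hh, g.1.2] at h2
      push_cast at h2
      omega
    have hcongr : LL (ext (n := n) (extB 0 (3 - n) fun g => FF (HH C) 0 g.1.1)) g.1.1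
        = LL (FF (HH C) 0) g.1.1 := by
      apply LL_congr
      intro v hv
      have hs : size v = n + 1 := by
        rw [size_eq, hv.1, hv.2.1, ← size_eq]; exact g.1.2
      have e : ext (n := n) (extB 0 (3 - n) fun g => FF (HH C) 0 g.1.1) v
          = (extB (n := n) 0 (3 - n) fun g => FF (HH C) 0 g.1.1) ⟨v, hs⟩ := ext_apply _ ⟨v, hs⟩
      rw [e]
      unfold extB
      rw [dif_pos]
      refine ⟨by rw [← hh]; exact hv.2.1, ?_⟩
      simp only
      have h2 := g.2.2
      rw [← h2, qdeg_eq, qdeg_eq, hv.2.1, hv.2.2, hs, g.1.2]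
    rw [hcongr]
    obtain ⟨a, c, e, hw⟩ := eq_Xs_two g.1.1 hh hones
    have hsize : a + c + e + 2 = n + 1 := by
      have := g.1.2
      rw [hw, size_append, size_cons, size_append, size_cons, size_Xs, size_Xs, size_Xs] at this
      omega
    rw [hw, HH_eq C (rate (n + 2)) a c e (cp_rec _ hx0) (cp_zero_one _ hx0) ?_, FF_Xs, zero_add]
    have hM : (n : ℝ) + 2 = ((n + 2 : ℕ) : ℝ) := by push_cast; ring
    have := cp_refl hM (by omega)
    rw [show a + c + e + 2 = n + 2 - 1 by omega, show a + c + e + 3 = n + 2 by omega]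
    exact this

theorem rate_pos (n : ℕ) : 0 < rate (n + 2) := by
  unfold rate
  have h1 : cos (π / (n + 2)) < 1 := by
    rw [← cos_zero]
    apply strictAntiOn_cos
    · exact ⟨le_refl _, pi_pos.le⟩
    · constructor
      · positivity
      · rw [div_le_iff₀ (by positivity)]
        have : (0 : ℝ) ≤ n := Nat.cast_nonneg _
        nlinarith [pi_pos]
    · positivity
  linarith

theorem isGap_main (hn : 1 ≤ n) : IsGap (lapBlock n 0 (3 - n)) (rate (n + 2)) := by
  refine ⟨⟨(rate_pos n).ne', eigenvector hn⟩, ?_⟩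
  rintro μ ⟨hμ, x, hx, h⟩
  exact block_ge 0 (3 - n) μ hμ x hx h

theorem ne_zero_of_isGap {ι : Type} [Fintype ι] (M : Matrix ι ι ℝ) (g : ℝ) (h : IsGap M g) :
    M ≠ 0 := by
  rintro rfl
  obtain ⟨⟨h0, x, hx, h1⟩, _⟩ := h
  rw [Matrix.zero_mulVec] at h1
  exact smul_ne_zero h0 hx h1.symm

theorem lapBlock_symm (k : ℕ) (j : ℤ) : (lapBlock n k j).IsSymm := by
  unfold lapBlock
  exact lap_symm.submatrix _

/-- A nonzero symmetric matrix has a gap. -/
theorem exists_isGap {ι : Type} [Fintype ι] (M : Matrix ι ι ℝ) (hs : M.IsSymm) (h0 : M ≠ 0) :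
    ∃ g, IsGap M g := by
  classical
  have hH : M.IsHermitian := by
    rw [Matrix.IsHermitian, Matrix.conjTranspose_eq_transpose_of_trivial]; exact hs
  set S : Set ℝ := {μ : ℝ | μ ≠ 0 ∧ ∃ x : ι → ℝ, x ≠ 0 ∧ M.mulVec x = μ • x} with hS
  have hfin : S.Finite := by
    refine (Module.End.finite_hasEigenvalue (Matrix.toLin' M)).subset ?_
    rintro μ ⟨_, x, hx, h⟩
    refine Module.End.hasEigenvalue_of_hasEigenvector (x := x) ⟨?_, hx⟩
    rw [Module.End.mem_eigenspace_iff, Matrix.toLin'_apply]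
    exact h
  have hne : S.Nonempty := by
    by_contra hcon
    rw [Set.not_nonempty_iff_eq_empty] at hcon
    apply h0
    rw [← hH.eigenvalues_eq_zero_iff]
    funext i
    by_contra hi
    have : hH.eigenvalues i ∈ S := by
      refine ⟨hi, (hH.eigenvectorBasis i : ι → ℝ), ?_, ?_⟩
      · intro hz
        have h1 := hH.eigenvectorBasis.orthonormal.ne_zero i
        exact h1 (by ext j; exact congrFun hz j)
      · exact hH.mulVec_eigenvectorBasis i
    rw [hcon] at this
    exact this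
  obtain ⟨g, hg1, hg2⟩ := hfin.exists_minimal hne
  refine ⟨g, hg1, ?_⟩
  intro μ hμ
  by_contra hlt
  push Not at hlt
  exact absurd (hg2 hμ hlt.le) (not_le.2 hlt)

end Pool.Agent.R804.TU
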