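import Pool.Agent.R804.TU.Mat

/-!
# Every nonzero eigenvalue is at least `2 - 2 cos (π / (n + 2))`
-/

set_option autoImplicit false

namespace Pool.Agent.R804.TU

open Finset Real

variable {n : ℕ}

/-- `g` has homological degree `k` and `q` labels `𝟏`. -/
def Ty (k q : ℕ) (g : Gen n) : Prop := hdeg g.1 = k ∧ ones g.1 = q

theorem ST_Ty {k q : ℕ} {σ : Gen n} (hσ : Ty k q σ) {u : List Circ} (h : ST u σ.1) :
    ∃ hu : size u = n + 1, Ty k q (⟨u, hu⟩ : Gen n) := by
  have hs : size u = n + 1 := by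
    rw [size_eq, h.1, h.2.1, ← size_eq]; exact σ.2
  exact ⟨hs, by rw [← hσ.1]; exact h.2.1, by rw [← hσ.2]; exact h.2.2⟩

theorem row_bound (k q : ℕ) (σ : Gen n) (hσ : Ty k q σ) (r : Fn) (hr1 : r σ.1 = 1)
    (hr : ∀ τ : Gen n, Ty k q τ → 0 < r τ.1) (lam : ℝ)
    (h : lam ≤ DD σ.1 - NS r σ.1) :
    lam ≤ lap n σ σ
      - ∑ τ, (open Classical in if τ ≠ σ ∧ Ty k q τ then |lap n σ τ| * r τ.1 else 0) := by
  classical
  set x : Gen n → ℝ := fun τ => if τ = σ then 1 else
    if Ty k q τ then - (SignType.sign (lap n σ τ) : ℝ) * r τ.1 else 0 with hx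
  have h1 : ((lap n).mulVec x) σ = lap n σ σ
      - ∑ τ, (if τ ≠ σ ∧ Ty k q τ then |lap n σ τ| * r τ.1 else 0) := by
    change ∑ τ, lap n σ τ * x τ = _
    have : lap n σ σ = ∑ τ, (if τ = σ then lap n σ σ else 0) := by simp
    rw [this, ← Finset.sum_sub_distrib]
    apply Finset.sum_congr rfl
    intro τ _
    simp only [hx]
    by_cases e : τ = σ
    · subst e; simp
    · rw [if_neg e, if_neg e]
      by_cases ht : Ty k q τ
      · rw [if_pos ht, if_pos ⟨e, ht⟩]
        have := self_mul_sign (lap n σ τ)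
        rw [zero_sub, ← this]; ring
      · rw [if_neg ht, if_neg (fun hh => ht hh.2)]; simp
  rw [← h1, lap_mulVec]
  have h2 := LL_bound (ext x) σ.1
  have hxσ : ext x σ.1 = 1 := by rw [ext_apply]; simp [hx]
  rw [hxσ, mul_one] at h2
  have h3 : NS (fun u => |ext x u|) σ.1 ≤ NS r σ.1 := by
    apply NS_mono
    intro u hu
    obtain ⟨hs, ht⟩ := ST_Ty hσ hu
    have e : ext x u = x ⟨u, hs⟩ := ext_apply x ⟨u, hs⟩
    rw [e]
    simp only [hx]
    by_cases e2 : (⟨u, hs⟩ : Gen n) = σ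
    · rw [if_pos e2]
      have : u = σ.1 := congrArg Subtype.val e2
      rw [this, hr1]; simp
    · rw [if_neg e2, if_pos ht, abs_mul, abs_neg]
      have hrp := hr _ ht
      simp only at hrp
      rw [abs_of_pos hrp]
      have : |(SignType.sign (lap n σ ⟨u, hs⟩) : ℝ)| ≤ 1 := by
        rcases lt_trichotomy (lap n σ ⟨u, hs⟩) 0 with h0 | h0 | h0
        · rw [sign_neg h0]; simp
        · rw [h0]; simp
        · rw [sign_pos h0]; simp
      nlinarith
  have h4 := (abs_le.1 h2).1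
  linarith

theorem size_gen (g : Gen n) : size g.1 = n + 1 := g.2

/-- The bound for functions supported in one type. -/
theorem bound_type (k q : ℕ) (hkq : (q ≤ 1 ∧ 1 ≤ k) ∨ 3 ≤ q) (y : Gen n → ℝ) (hy : y ≠ 0)
    (hsupp : ∀ g, ¬ Ty k q g → y g = 0) (μ : ℝ) (hμ : (lap n).mulVec y = μ • y) :
    rate (n + 2) ≤ μ := by
  rcases hkq with ⟨hq, hk⟩ | hq
  · -- at most one label `𝟏`
    set M := n + 1 + q with hM
    have hM0 : (0 : ℝ) < (M : ℕ) := by rw [hM]; positivity
    have hep : ∀ g : Gen n, Ty k q g → ep 0 g.1 = M := by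
      intro g hg
      rw [ep_eq, size_gen, hg.2]; omega
    have hprof : Prof (sp (M : ℕ)) (rate (M : ℕ)) M := prof_sp hM0 M (le_refl _)
    have hpos : ∀ g : Gen n, Ty k q g → 0 < V (sp (M : ℕ)) 0 g.1 := by
      intro g hg
      refine V_pos hprof ?_ g.1 0 (hep g hg).le (by rw [hg.1]; omega)
      intro i h0 hi
      exact sp_pos hM0 i h0 (by exact_mod_cast hi)
    have hmono : rate (n + 2) ≤ rate (M : ℕ) := by
      apply rate_anti
      · rw [hM]; push_cast
        have : (0 : ℝ) ≤ n := Nat.cast_nonneg _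
        have : (0 : ℝ) ≤ q := Nat.cast_nonneg _
        linarith
      · rw [hM]; push_cast
        have : (q : ℝ) ≤ 1 := by exact_mod_cast hq
        linarith
    refine hmono.trans ?_
    refine schur (lap n) lap_symm (Ty k q)
      (fun σ τ => V (sp (M : ℕ)) 0 τ.1 / V (sp (M : ℕ)) 0 σ.1)
      (fun σ τ h1 h2 => div_pos (hpos τ h2) (hpos σ h1)) ?_ (rate (M : ℕ)) ?_ y hsupp μ hμ hy
    · intro σ τ h1 h2
      have := (hpos τ h2).ne'
      have := (hpos σ h1).ne'
      field_simp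
    · intro σ hσ
      have hvσ := hpos σ hσ
      refine row_bound k q σ hσ (fun u => V (sp (M : ℕ)) 0 u / V (sp (M : ℕ)) 0 σ.1)
        (div_self hvσ.ne') (fun τ h => div_pos (hpos τ h) hvσ) _ ?_
      have hne : σ.1 ≠ [] := by
        intro e
        have := size_gen σ
        rw [e, size_nil] at this
        omega
      have hepσ := hep σ hσ
      have h1 := energy_two_walls (s := sp (M : ℕ)) (ε := rate (M : ℕ)) σ.1 hne
        (by rw [hσ.2]; exact hq) (by rw [hepσ]; exact hprof) (sp_zero _)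
        (by rw [hepσ]; exact sp_self (by omega))
      have h2 : NS (fun u => V (sp (M : ℕ)) 0 u / V (sp (M : ℕ)) 0 σ.1) σ.1
          = (1 / V (sp (M : ℕ)) 0 σ.1) * NS (V (sp (M : ℕ)) 0) σ.1 := by
        rw [← NS_smul]
        congr 1
        funext u; ring
      rw [h2]
      have h3 : DD σ.1 - (1 / V (sp (M : ℕ)) 0 σ.1) * NS (V (sp (M : ℕ)) 0) σ.1
          = (DD σ.1 * V (sp (M : ℕ)) 0 σ.1 - NS (V (sp (M : ℕ)) 0) σ.1)
            / V (sp (M : ℕ)) 0 σ.1 := by
        field_simp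
      rw [h3, le_div_iff₀ hvσ]
      exact h1
  · -- at least three labels `𝟏`
    refine schur (lap n) lap_symm (Ty k q) (fun σ τ => rr σ.1 τ.1)
      (fun σ τ h1 h2 => rr_pos _ _ (by rw [h1.2]; exact hq) (by rw [h2.2]; exact hq)) ?_
      (rate (n + 2)) ?_ y hsupp μ hμ hy
    · intro σ τ h1 h2
      exact rr_mul _ _ (by rw [h1.2]; exact hq) (by rw [h2.2]; exact hq)
        (by rw [size_gen, size_gen])
    · intro σ hσ
      have hq' : 3 ≤ ones σ.1 := by rw [hσ.2]; exact hq
      refine row_bound k q σ hσ (rr σ.1) (rr_self _ hq')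
        (fun τ h => rr_pos _ _ hq' (by rw [h.2]; exact hq)) _ ?_
      have h1 := row_three σ.1 hq'
      rw [size_gen] at h1
      have e : ((n + 1 : ℕ) : ℝ) + 1 = n + 2 := by push_cast; ring
      rw [e] at h1
      exact h1

theorem diff_type {k q : ℕ} (y : Gen n → ℝ) (hsupp : ∀ g, ¬ Ty k (q + 1) g → y g = 0) :
    ∀ g, ¬ Ty (k + 1) q g → (diff n).mulVec y g = 0 := by
  intro g hg
  rw [diff_mulVec]
  apply dS_supp
  intro v h1 h2 h3
  have hs : size v = n + 1 := by rw [h1]; exact g.2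
  have e : ext y v = y ⟨v, hs⟩ := ext_apply y ⟨v, hs⟩
  rw [e]
  apply hsupp
  rintro ⟨a, b⟩
  apply hg
  simp only at a b
  exact ⟨by omega, by omega⟩

theorem diff_type_zero {k : ℕ} (y : Gen n → ℝ) (hsupp : ∀ g, ¬ Ty k 0 g → y g = 0) :
    (diff n).mulVec y = 0 := by
  funext g
  rw [diff_mulVec]
  apply dS_supp
  intro v h1 h2 h3
  have hs : size v = n + 1 := by rw [h1]; exact g.2
  have e : ext y v = y ⟨v, hs⟩ := ext_apply y ⟨v, hs⟩
  rw [e]
  apply hsupp
  rintro ⟨a, b⟩
  simp only at a b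
  omega

theorem diffT_type {k q : ℕ} (y : Gen n → ℝ) (hsupp : ∀ g, ¬ Ty (k + 1) q g → y g = 0) :
    ∀ g, ¬ Ty k (q + 1) g → (diff n).transpose.mulVec y g = 0 := by
  intro g hg
  rw [diffT_mulVec]
  apply dT_supp
  intro v h1 h2 h3
  have hs : size v = n + 1 := by rw [h1]; exact g.2
  have e : ext y v = y ⟨v, hs⟩ := ext_apply y ⟨v, hs⟩
  rw [e]
  apply hsupp
  rintro ⟨a, b⟩
  apply hg
  simp only at a b
  exact ⟨by omega, by omega⟩

theorem diffT_type_zero {q : ℕ} (y : Gen n → ℝ) (hsupp : ∀ g, ¬ Ty 0 q g → y g = 0) :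
    (diff n).transpose.mulVec y = 0 := by
  funext g
  rw [diffT_mulVec]
  apply dT_supp
  intro v h1 h2 h3
  have hs : size v = n + 1 := by rw [h1]; exact g.2
  have e : ext y v = y ⟨v, hs⟩ := ext_apply y ⟨v, hs⟩
  rw [e]
  apply hsupp
  rintro ⟨a, b⟩
  simp only at a b
  omega

theorem lap_eq_zero (y : Gen n → ℝ) (h1 : (diff n).mulVec y = 0)
    (h2 : (diff n).transpose.mulVec y = 0) : (lap n).mulVec y = 0 := by
  unfold lap
  rw [Matrix.add_mulVec, ← Matrix.mulVec_mulVec, ← Matrix.mulVec_mulVec, h1, h2]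
  simp

/-- The bound for all types. -/
theorem bound_all (k q : ℕ) (y : Gen n → ℝ) (hy : y ≠ 0)
    (hsupp : ∀ g, ¬ Ty k q g → y g = 0) (μ : ℝ) (hμ0 : μ ≠ 0)
    (hμ : (lap n).mulVec y = μ • y) : rate (n + 2) ≤ μ := by
  have hnz : (lap n).mulVec y ≠ 0 := by
    rw [hμ]; exact smul_ne_zero hμ0 hy
  have hd : (lap n).mulVec ((diff n).mulVec y) = μ • ((diff n).mulVec y) := by
    rw [lap_diff, hμ, Matrix.mulVec_smul]
  have hdT : (lap n).mulVec ((diff n).transpose.mulVec y) = μ • ((diff n).transpose.mulVec y) := by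
    rw [lap_diffT, hμ, Matrix.mulVec_smul]
  by_cases c : (q ≤ 1 ∧ 1 ≤ k) ∨ 3 ≤ q
  · exact bound_type k q c y hy hsupp μ hμ
  · push Not at c
    obtain ⟨c1, c2⟩ := c
    rcases q with _ | q
    · have hk : k = 0 := by have := c1 (by omega); omega
      subst hk
      exact absurd (lap_eq_zero y (diff_type_zero y hsupp) (diffT_type_zero y hsupp)) hnz
    · by_cases h1 : (diff n).mulVec y = 0
      · have h2 : (diff n).transpose.mulVec y ≠ 0 := fun h2 => hnz (lap_eq_zero y h1 h2)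
        rcases k with _ | k
        · exact absurd (diffT_type_zero y hsupp) h2
        · have hq : q = 1 := by
            by_contra hcon
            have : q = 0 := by omega
            have := c1 (by omega)
            omega
          exact bound_type k (q + 1 + 1) (Or.inr (by omega)) _ h2 (diffT_type y hsupp) μ hdT
      · exact bound_type (k + 1) q (Or.inl ⟨by omega, by omega⟩) _ h1 (diff_type y hsupp) μ hd

end Pool.Agent.R804.TU
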