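import Pool.Agent.R804.TU.Ops

/-!
# The Laplacian as an operator on functions of labelled resolutions
-/

set_option autoImplicit false

namespace Pool.Agent.R804.TU

open Finset

/-- The Laplacian. -/
noncomputable def LL (f : Fn) (w : List Circ) : ℝ := dT (dS f) w + dS (dT f) w

theorem LL_add (f g : Fn) (w : List Circ) : LL (fun u => f u + g u) w = LL f w + LL g w := by
  unfold LL
  have h1 : dS (fun u => f u + g u) = fun u => dS f u + dS g u := by funext u; exact dS_add f g u
  have h2 : dT (fun u => f u + g u) = fun u => dT f u + dT g u := by funext u; exact dT_add f g u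
  rw [h1, h2, dT_add, dS_add]; ring

theorem LL_smul (c : ℝ) (f : Fn) (w : List Circ) : LL (fun u => c * f u) w = c * LL f w := by
  unfold LL
  have h1 : dS (fun u => c * f u) = fun u => c * dS f u := by funext u; exact dS_smul c f u
  have h2 : dT (fun u => c * f u) = fun u => c * dT f u := by funext u; exact dT_smul c f u
  rw [h1, h2, dT_smul, dS_smul]; ring

/-- Half the diagonal contribution of a circle. -/
noncomputable def half (β : Circ) : ℝ := if β.2 then (β.1 : ℝ) / 2 else β.1

/-- The junction terms of the Laplacian at two consecutive circles. -/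
noncomputable def JJ (β γ : Circ) (G : Circ → Circ → ℝ) : ℝ :=
  (if β.2 || γ.2 then
    (-1) ^ β.1 * ∑ a ∈ range (β.1 + γ.1 + 1), (-1) ^ a * Sp (β.2 && γ.2) a (β.1 + γ.1 - a) G
   else 0)
  + (∑ b ∈ range γ.1, (-1) ^ b * Sp γ.2 b (γ.1 - 1 - b)
      (fun x y => if β.2 || x.2 then G (β.1 + x.1 + 1, β.2 && x.2) y else 0))
  + (∑ a ∈ range β.1, (-1) ^ (β.1 - 1 - a) * Sp β.2 a (β.1 - 1 - a)
      (fun x y => if y.2 || γ.2 then G x (y.1 + γ.1 + 1, y.2 && γ.2) else 0))

theorem neg_one_sq_pow (n : ℕ) : ((-1 : ℝ) ^ n) * (-1) ^ n = 1 := by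
  rw [← mul_pow]; norm_num

theorem Sp_split_mg (b : Bool) (i j : ℕ) (w : List Circ) (f : Fn) :
    Sp b i j (fun x y => mg x (y :: w) f) = (if b then 1 else 2) * f ((i + j + 1, b) :: w) := by
  unfold Sp
  cases b <;> simp [mg]
  ring

theorem LL_cons (f : Fn) (β : Circ) (w : List Circ) :
    LL f (β :: w) = LL (fun u => f (β :: u)) w + 2 * half β * f (β :: w)
      + (match w with
          | [] => 0
          | γ :: w' => JJ β γ (fun x y => f (x :: y :: w'))) := by
  -- expand the two compositions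
  have e1 : dT (dS f) (β :: w) = (-1) ^ β.1 * (mg β w (dS f)
      + ((∑ a ∈ range β.1, (-1) ^ a *
            Sp β.2 a (β.1 - 1 - a) (fun x y => dT (fun u => f (x :: y :: u)) w))
          + (-1) ^ β.1 * dT (dS (fun u => f (β :: u))) w)) := by
    rw [dT_cons]
    congr 2
    have : (fun u => dS f (β :: u)) = fun u =>
        (∑ a ∈ range β.1, (-1) ^ a * Sp β.2 a (β.1 - 1 - a) (fun x y => f (x :: y :: u)))
        + (-1) ^ β.1 * dS (fun u => f (β :: u)) u := by
      funext u; rfl
    rw [this, dT_add, dT_smul, dT_sum]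
    congr 1
    apply Finset.sum_congr rfl
    intro a _
    rw [dT_smul, dT_Sp]
  have e2 : dS (dT f) (β :: w) =
      (∑ a ∈ range β.1, (-1) ^ a * Sp β.2 a (β.1 - 1 - a) (fun x y => dT f (x :: y :: w)))
      + (-1) ^ β.1 * ((-1) ^ β.1 * (dS (fun u => mg β u f) w + dS (dT (fun u => f (β :: u))) w)) := by
    rw [dS_cons]
    congr 2
    have : (fun u => dT f (β :: u)) = fun u =>
        (-1) ^ β.1 * (mg β u f + dT (fun u => f (β :: u)) u) := by
      funext u; rfl
    rw [this, dS_smul, dS_add]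
  have e3 : ∀ a ∈ range β.1, (-1 : ℝ) ^ a * Sp β.2 a (β.1 - 1 - a) (fun x y => dT f (x :: y :: w))
      = (if β.2 then 1 else 2) * f (β :: w)
        + (-1) ^ (β.1 - 1 - a) * Sp β.2 a (β.1 - 1 - a) (fun x y => mg y w (fun u => f (x :: u)))
        - (-1) ^ β.1 * ((-1) ^ a *
          Sp β.2 a (β.1 - 1 - a) (fun x y => dT (fun u => f (x :: y :: u)) w)) := by
    intro a ha
    have ha' : a < β.1 := Finset.mem_range.1 ha
    obtain ⟨c, hc⟩ : ∃ c, β.1 = a + c + 1 := ⟨β.1 - a - 1, by omega⟩
    have hc' : β.1 - 1 - a = c := by omega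
    rw [hc', hc]
    have hβ : β = (a + c + 1, β.2) := by rw [← hc]
    have s1 : ∀ (x y : Circ), x.1 = a → y.1 = c → dT f (x :: y :: w) =
        (-1) ^ a * mg x (y :: w) f + ((-1) ^ a * (-1) ^ c) * mg y w (fun u => f (x :: u))
          + ((-1) ^ a * (-1) ^ c) * dT (fun u => f (x :: y :: u)) w := by
      intro x y hx hy
      rw [dT_cons, dT_cons, hx, hy]
      ring
    have s2 : Sp β.2 a c (fun x y => dT f (x :: y :: w))
        = Sp β.2 a c (fun x y => (-1) ^ a * mg x (y :: w) f
          + ((-1) ^ a * (-1) ^ c) * mg y w (fun u => f (x :: u))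
          + ((-1) ^ a * (-1) ^ c) * dT (fun u => f (x :: y :: u)) w) := by
      unfold Sp
      beta_reduce
      rw [s1 (a, true) (c, true) rfl rfl, s1 (a, true) (c, false) rfl rfl,
        s1 (a, false) (c, true) rfl rfl]
    rw [s2, Sp_add, Sp_add, Sp_smul, Sp_smul, Sp_smul, Sp_split_mg]
    rw [← hβ]
    have h1 := neg_one_sq_pow a
    have h2 : (-1 : ℝ) ^ (a + c + 1) = - ((-1) ^ a * (-1) ^ c) := by
      rw [pow_succ, pow_add]; ring
    rw [h2]
    linear_combination ((if β.2 then (1:ℝ) else 2) * f (β :: w)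
      + (-1) ^ c * Sp β.2 a c (fun x y => mg y w (fun u => f (x :: u)))) * h1
  unfold LL
  rw [e1, e2, Finset.sum_congr rfl e3]
  rw [Finset.sum_sub_distrib, Finset.sum_add_distrib, Finset.sum_const, Finset.card_range,
    ← Finset.mul_sum]
  have hh : (β.1 • ((if β.2 then (1:ℝ) else 2) * f (β :: w))) = 2 * half β * f (β :: w) := by
    unfold half
    rw [nsmul_eq_mul]
    split_ifs <;> ring
  rw [hh]
  have hsq := neg_one_sq_pow β.1
  rcases w with _ | ⟨γ, w'⟩
  · simp only [mg, dS_nil, dT_nil]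
    have z : ∀ a, Sp β.2 a (β.1 - 1 - a) (fun _ _ => (0:ℝ)) = 0 := by
      intro a; unfold Sp; simp
    simp only [z]
    simp
  · simp only
    have t1 : (-1 : ℝ) ^ β.1 * mg β (γ :: w') (dS f) + dS (fun u => mg β u f) (γ :: w')
        + ∑ a ∈ range β.1, (-1) ^ (β.1 - 1 - a) *
            Sp β.2 a (β.1 - 1 - a) (fun x y => mg y (γ :: w') (fun u => f (x :: u)))
        = JJ β γ (fun x y => f (x :: y :: w')) := by
      unfold JJ
      congr 1
      rw [dS_cons]
      simp only [mg]
      by_cases h : (β.2 || γ.2) = true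
      · simp only [h, if_true]
        rw [dS_cons]
        simp only [show β.1 + γ.1 + 1 - 1 = β.1 + γ.1 from rfl]
        have hp : (-1 : ℝ) ^ (β.1 + γ.1 + 1) = - ((-1) ^ β.1 * (-1) ^ γ.1) := by
          rw [pow_succ, pow_add]; ring
        rw [hp]
        linear_combination (-(-1) ^ γ.1 *
          dS (fun u => f ((β.1 + γ.1 + 1, β.2 && γ.2) :: u)) w') * hsq
      · simp only [h]
        have : dS (fun _ => (0 : ℝ)) w' = 0 := dS_zero w'
        simp [this]
    rw [← t1]
    linear_combination (dT (dS (fun u => f (β :: u))) (γ :: w')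
      + dS (dT (fun u => f (β :: u))) (γ :: w') + dS (fun u => mg β u f) (γ :: w')) * hsq

end Pool.Agent.R804.TU
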