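import Pool.Agent.R804.TU.Row

/-!
# From functions on lists to matrices
-/

set_option autoImplicit false

namespace Pool.Agent.R804.TU

open Finset

/-! ### Support -/

theorem dS_supp (w : List Circ) (f : Fn)
    (h : ∀ v, size v = size w → hdeg v + 1 = hdeg w → ones v = ones w + 1 → f v = 0) :
    dS f w = 0 := by
  induction w generalizing f with
  | nil => rfl
  | cons β w ih =>
    rw [dS_cons, ih]
    · rw [mul_zero, add_zero]
      apply Finset.sum_eq_zero
      intro a ha
      have ha' := Finset.mem_range.1 ha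
      have key : ∀ x y : Circ, x.1 = a → y.1 = β.1 - 1 - a →
          lab x + lab y = lab β + 1 → f (x :: y :: w) = 0 := by
        intro x y hx hy hl
        apply h
        · rw [size_cons, size_cons, size_cons]; omega
        · rw [hdeg_cons, hdeg_cons, hdeg_cons]; omega
        · rw [ones_cons, ones_cons, ones_cons]
          unfold lab at hl; omega
      have : Sp β.2 a (β.1 - 1 - a) (fun x y => f (x :: y :: w)) = 0 := by
        unfold Sp
        split_ifs with hb
        · exact key _ _ rfl rfl (by simp [lab, hb])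
        · have k1 := key (a, true) (β.1 - 1 - a, false) rfl rfl (by simp [lab, hb])
          have k2 := key (a, false) (β.1 - 1 - a, true) rfl rfl (by simp [lab, hb])
          beta_reduce
          rw [k1, k2, add_zero]
      rw [this, mul_zero]
    · intro v h1 h2 h3
      apply h
      · rw [size_cons, size_cons]; omega
      · rw [hdeg_cons, hdeg_cons]; omega
      · rw [ones_cons, ones_cons]; omega

theorem dT_supp (w : List Circ) (f : Fn)
    (h : ∀ v, size v = size w → hdeg v = hdeg w + 1 → ones v + 1 = ones w → f v = 0) :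
    dT f w = 0 := by
  induction w generalizing f with
  | nil => rfl
  | cons β w ih =>
    rw [dT_cons, ih]
    · rcases w with _ | ⟨γ, w⟩
      · simp [mg]
      · simp only [mg]
        split_ifs with hb
        · rw [h]
          · simp
          · rw [size_cons, size_cons, size_cons]; simp; omega
          · rw [hdeg_cons, hdeg_cons, hdeg_cons]; simp; omega
          · rw [ones_cons, ones_cons, ones_cons]
            cases h1 : β.2 <;> cases h2 : γ.2 <;> simp_all <;> omega
        · simp
    · intro v h1 h2 h3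
      apply h
      · rw [size_cons, size_cons]; omega
      · rw [hdeg_cons, hdeg_cons]; omega
      · rw [ones_cons, ones_cons]; omega

theorem NS_zero (w : List Circ) : NS (fun _ => 0) w = 0 := by
  induction w with
  | nil => rfl
  | cons β w ih =>
    rcases w with _ | ⟨γ, w⟩
    · rfl
    · simp only [NS]
      rw [ih]
      have := PP_smul β γ 0 (fun _ _ => (0 : ℝ))
      simp only [mul_zero, zero_mul] at this
      rw [this, add_zero]

theorem NS_smul (c : ℝ) (f : Fn) (w : List Circ) : NS (fun u => c * f u) w = c * NS f w := by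
  induction w generalizing f with
  | nil => simp [NS]
  | cons β w ih =>
    rcases w with _ | ⟨γ, w⟩
    · simp [NS]
    · simp only [NS]
      rw [ih, PP_smul]; ring

theorem LL_supp (w : List Circ) (f : Fn) (h : ∀ v, ST v w → f v = 0) : LL f w = 0 := by
  have h1 := LL_bound f w
  rw [h w (ST.refl w), mul_zero, sub_zero] at h1
  have h2 : NS (fun u => |f u|) w ≤ NS (fun _ => 0) w := by
    apply NS_mono
    intro u hu
    rw [h u hu, abs_zero]
  rw [NS_zero] at h2
  have h3 := abs_nonneg (LL f w)
  exact abs_eq_zero.1 (le_antisymm (h1.trans h2) h3)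

theorem LL_congr (w : List Circ) (f g : Fn) (h : ∀ v, ST v w → f v = g v) : LL f w = LL g w := by
  have h1 : LL (fun u => f u + (-1) * g u) w = 0 := by
    apply LL_supp
    intro v hv
    rw [h v hv]; ring
  rw [LL_add, LL_smul] at h1
  linarith

/-! ### The square of the differential -/

theorem dT_dT (w : List Circ) (f : Fn) : dT (dT f) w = 0 := by
  induction w generalizing f with
  | nil => rfl
  | cons β w ih =>
    rw [dT_cons]
    have e1 : (fun u => dT f (β :: u)) = fun u => (-1) ^ β.1 * (mg β u f + dT (fun u => f (β :: u)) u) := by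
      funext u; rfl
    rw [e1, dT_smul, dT_add, ih, add_zero]
    rcases w with _ | ⟨γ, w⟩
    · simp [mg, dT_nil]
    · rw [dT_cons]
      have mgc : ∀ (b c : Circ) (v : List Circ) (g : Fn), mg b (c :: v) g
          = if b.2 || c.2 then g ((b.1 + c.1 + 1, b.2 && c.2) :: v) else 0 := fun _ _ _ _ => rfl
      have e4 : (fun u => mg β (γ :: u) f)
          = fun u => if β.2 || γ.2 then f ((β.1 + γ.1 + 1, β.2 && γ.2) :: u) else 0 := by
        funext u; rfl
      rw [mgc, dT_cons, e4]
      have hp : (-1 : ℝ) ^ (β.1 + γ.1 + 1) = - ((-1) ^ β.1 * (-1) ^ γ.1) := by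
        rw [pow_succ, pow_add]; ring
      have e3 : mg γ w (fun u => mg β u f)
          = if β.2 || γ.2 then mg (β.1 + γ.1 + 1, β.2 && γ.2) w f else 0 := by
        rcases w with _ | ⟨δ, w⟩
        · simp [mg]
        · simp only [mg]
          rw [show β.1 + (γ.1 + δ.1 + 1) + 1 = β.1 + γ.1 + 1 + δ.1 + 1 by ring]
          cases β.2 <;> cases γ.2 <;> cases δ.2 <;> simp
      rw [e3]
      by_cases hb : (β.2 || γ.2) = true
      · simp only [hb, if_true]
        rw [hp]; ring
      · simp only [hb]
        have : dT (fun _ => (0 : ℝ)) w = 0 := dT_zero w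
        simp [this]

/-! ### Matrices -/

variable {n : ℕ}

/-- Extension by zero. -/
noncomputable def ext (x : Gen n → ℝ) : Fn := fun w => if h : size w = n + 1 then x ⟨w, h⟩ else 0

theorem ext_apply (x : Gen n → ℝ) (g : Gen n) : ext x g.1 = x g := by
  unfold ext; rw [dif_pos g.2]

theorem ext_eq_sum (x : Gen n → ℝ) : ext x = fun u => ∑ g : Gen n, x g * dl g.1 u := by
  funext u
  unfold ext
  split_ifs with h
  · rw [Finset.sum_eq_single (⟨u, h⟩ : Gen n)]
    · simp [dl]
    · intro g _ hg
      unfold dl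
      rw [if_neg, mul_zero]
      intro e
      exact hg (Subtype.ext e.symm)
    · intro h'; exact absurd (Finset.mem_univ _) h'
  · symm
    apply Finset.sum_eq_zero
    intro g _
    unfold dl
    rw [if_neg, mul_zero]
    intro e
    rw [e] at h
    exact h g.2

theorem diff_eq (ρ σ : Gen n) : diff n ρ σ = dT (dl ρ.1) σ.1 := by
  rw [← dT_eq_terms]
  unfold diff dl
  congr 1
  apply List.map_congr_left
  intro t _
  split_ifs <;> simp

theorem diffT_mulVec (x : Gen n → ℝ) (σ : Gen n) :
    ((diff n).transpose.mulVec x) σ = dT (ext x) σ.1 := by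
  rw [ext_eq_sum, dT_sum]
  unfold Matrix.mulVec dotProduct
  apply Finset.sum_congr rfl
  intro ρ _
  have e : (diff n).transpose σ ρ = dT (dl ρ.1) σ.1 := by rw [Matrix.transpose_apply, diff_eq]
  change (diff n).transpose σ ρ * x ρ = _
  rw [dT_smul, e]; ring

theorem diff_mulVec (x : Gen n → ℝ) (ρ : Gen n) :
    ((diff n).mulVec x) ρ = dS (ext x) ρ.1 := by
  rw [ext_eq_sum, dS_sum]
  unfold Matrix.mulVec dotProduct
  apply Finset.sum_congr rfl
  intro σ _
  have e : diff n ρ σ = dT (dl ρ.1) σ.1 := diff_eq ρ σ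
  change diff n ρ σ * x σ = _
  rw [dS_smul, e, adj]; ring

theorem ext_diff (x : Gen n → ℝ) : ext ((diff n).mulVec x) = dS (ext x) := by
  funext u
  by_cases h : size u = n + 1
  · have := ext_apply ((diff n).mulVec x) ⟨u, h⟩
    rw [diff_mulVec] at this
    exact this
  · have : dS (ext x) u = 0 := by
      apply dS_supp
      intro v hv _ _
      unfold ext
      rw [dif_neg]; rw [hv]; exact h
    rw [this]
    unfold ext
    rw [dif_neg h]

theorem ext_diffT (x : Gen n → ℝ) : ext ((diff n).transpose.mulVec x) = dT (ext x) := by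
  funext u
  by_cases h : size u = n + 1
  · have := ext_apply ((diff n).transpose.mulVec x) ⟨u, h⟩
    rw [diffT_mulVec] at this
    exact this
  · have : dT (ext x) u = 0 := by
      apply dT_supp
      intro v hv _ _
      unfold ext
      rw [dif_neg]; rw [hv]; exact h
    rw [this]
    unfold ext
    rw [dif_neg h]

theorem lap_mulVec (x : Gen n → ℝ) (σ : Gen n) :
    ((lap n).mulVec x) σ = LL (ext x) σ.1 := by
  unfold lap
  rw [Matrix.add_mulVec, ← Matrix.mulVec_mulVec, ← Matrix.mulVec_mulVec, Pi.add_apply,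
    diffT_mulVec, diff_mulVec, ext_diff, ext_diffT]
  rfl

theorem diffT_sq : (diff n).transpose * (diff n).transpose = 0 := by
  apply Matrix.ext_of_mulVec_single
  intro i
  funext σ
  rw [← Matrix.mulVec_mulVec, diffT_mulVec, ext_diffT, dT_dT]
  simp

theorem diff_sq : diff n * diff n = 0 := by
  have := congrArg Matrix.transpose (diffT_sq (n := n))
  rw [Matrix.transpose_mul, Matrix.transpose_transpose] at this
  simpa using this

theorem lap_diff (x : Gen n → ℝ) :
    (lap n).mulVec ((diff n).mulVec x) = (diff n).mulVec ((lap n).mulVec x) := by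
  rw [Matrix.mulVec_mulVec, Matrix.mulVec_mulVec]
  congr 1
  unfold lap
  rw [Matrix.add_mul, Matrix.mul_add, Matrix.mul_assoc, Matrix.mul_assoc, diff_sq,
    ← Matrix.mul_assoc (diff n) (diff n), diff_sq]
  simp

theorem lap_diffT (x : Gen n → ℝ) :
    (lap n).mulVec ((diff n).transpose.mulVec x)
      = (diff n).transpose.mulVec ((lap n).mulVec x) := by
  rw [Matrix.mulVec_mulVec, Matrix.mulVec_mulVec]
  congr 1
  unfold lap
  rw [Matrix.add_mul, Matrix.mul_add, Matrix.mul_assoc (diff n), diffT_sq,
    ← Matrix.mul_assoc (diff n).transpose (diff n).transpose, diffT_sq]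
  simp [Matrix.mul_assoc]

theorem lap_symm : (lap n).IsSymm := by
  unfold lap Matrix.IsSymm
  rw [Matrix.transpose_add, Matrix.transpose_mul, Matrix.transpose_mul,
    Matrix.transpose_transpose]

/-! ### The weighted Schur test -/

theorem schur {ι : Type} [Fintype ι] [DecidableEq ι] (A : Matrix ι ι ℝ) (hA : A.IsSymm)
    (P : ι → Prop) (r : ι → ι → ℝ) (hr : ∀ σ τ, P σ → P τ → 0 < r σ τ)
    (hm : ∀ σ τ, P σ → P τ → r σ τ * r τ σ = 1) (lam : ℝ)
    (hrow : ∀ σ, P σ → lam ≤ A σ σ - ∑ τ, (open Classical in if τ ≠ σ ∧ P τ then |A σ τ| * r σ τ else 0))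
    (x : ι → ℝ) (hx : ∀ σ, ¬ P σ → x σ = 0) (μ : ℝ) (hμ : A.mulVec x = μ • x) (hne : x ≠ 0) :
    lam ≤ μ := by
  classical
  set B : ι → ι → ℝ := fun σ τ => if τ ≠ σ ∧ P τ ∧ P σ then |A σ τ| * r σ τ * x σ ^ 2 else 0 with hB
  have hsq : 0 < ∑ σ, x σ ^ 2 := by
    obtain ⟨i, hi⟩ : ∃ i, x i ≠ 0 := by
      by_contra hcon
      push Not at hcon
      exact hne (funext hcon)
    exact Finset.sum_pos' (fun j _ => sq_nonneg _) ⟨i, Finset.mem_univ _, by positivity⟩
  have h1 : ∑ σ, x σ * (A.mulVec x) σ = μ * ∑ σ, x σ ^ 2 := by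
    rw [hμ, Finset.mul_sum]
    apply Finset.sum_congr rfl
    intro σ _
    simp only [Pi.smul_apply, smul_eq_mul]; ring
  have h2 : ∀ σ τ, (if τ = σ then A σ σ * x σ ^ 2 else 0) - (1 / 2 * B σ τ + 1 / 2 * B τ σ)
      ≤ x σ * (A σ τ * x τ) := by
    intro σ τ
    by_cases h : τ = σ
    · subst h
      simp only [hB, if_true, ne_eq, not_true_eq_false, false_and, if_false]
      apply le_of_eq; ring
    · rw [if_neg h]
      by_cases hP : P σ ∧ P τ
      · obtain ⟨hPσ, hPτ⟩ := hP
        have hBst : B σ τ = |A σ τ| * r σ τ * x σ ^ 2 := by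
          simp only [hB]; rw [if_pos ⟨h, hPτ, hPσ⟩]
        have hBts : B τ σ = |A σ τ| * r τ σ * x τ ^ 2 := by
          simp only [hB]; rw [if_pos ⟨fun e => h e.symm, hPσ, hPτ⟩]
          have : A τ σ = A σ τ := by
            have := congrFun (congrFun hA σ) τ
            rwa [Matrix.transpose_apply] at this
          rw [this]
        rw [hBst, hBts]
        have r1 := hr σ τ hPσ hPτ
        have r2 := hm σ τ hPσ hPτ
        have h3 : 2 * (|x σ| * |x τ|) ≤ r σ τ * x σ ^ 2 + r τ σ * x τ ^ 2 := by
          have h4 := sq_nonneg (r σ τ * |x σ| - |x τ|)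
          have h5 : r σ τ * (r σ τ * x σ ^ 2 + r τ σ * x τ ^ 2 - 2 * (|x σ| * |x τ|))
              = (r σ τ * |x σ| - |x τ|) ^ 2 := by
            rw [← sq_abs (x σ), ← sq_abs (x τ)]
            linear_combination (|x τ| ^ 2) * r2
          by_contra hcon
          push Not at hcon
          have h6 : r σ τ * (r σ τ * x σ ^ 2 + r τ σ * x τ ^ 2 - 2 * (|x σ| * |x τ|)) < 0 :=
            mul_neg_of_pos_of_neg r1 (by linarith)
          rw [h5] at h6
          linarith
        have h7 : -(|A σ τ| * (|x σ| * |x τ|)) ≤ x σ * (A σ τ * x τ) := by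
          have : |x σ * (A σ τ * x τ)| = |A σ τ| * (|x σ| * |x τ|) := by
            rw [abs_mul, abs_mul]; ring
          rw [← this]
          exact neg_abs_le _
        have h8 := mul_le_mul_of_nonneg_left h3 (abs_nonneg (A σ τ))
        linarith
      · have hz : x σ * (A σ τ * x τ) = 0 := by
          by_cases hPσ : P σ
          · rw [hx τ (fun hPτ => hP ⟨hPσ, hPτ⟩)]; ring
          · rw [hx σ hPσ]; ring
        have hb1 : B σ τ = 0 := by
          simp only [hB]; rw [if_neg]; rintro ⟨_, a, b⟩; exact hP ⟨b, a⟩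
        have hb2 : B τ σ = 0 := by
          simp only [hB]; rw [if_neg]; rintro ⟨_, a, b⟩; exact hP ⟨a, b⟩
        rw [hz, hb1, hb2]; simp
  have h3 : ∑ σ, ∑ τ, ((if τ = σ then A σ σ * x σ ^ 2 else 0) - (1 / 2 * B σ τ + 1 / 2 * B τ σ))
      ≤ ∑ σ, x σ * (A.mulVec x) σ := by
    apply Finset.sum_le_sum
    intro σ _
    unfold Matrix.mulVec dotProduct
    rw [Finset.mul_sum]
    apply Finset.sum_le_sum
    intro τ _
    exact h2 σ τ
  have h4 : ∑ σ, ∑ τ, ((if τ = σ then A σ σ * x σ ^ 2 else 0) - (1 / 2 * B σ τ + 1 / 2 * B τ σ))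
      = ∑ σ, (A σ σ * x σ ^ 2 - ∑ τ, B σ τ) := by
    have hc : ∑ σ, ∑ τ, B τ σ = ∑ σ, ∑ τ, B σ τ := Finset.sum_comm
    simp only [Finset.sum_sub_distrib, Finset.sum_add_distrib, ← Finset.mul_sum]
    rw [hc]
    simp only [Finset.sum_ite_eq', Finset.mem_univ, if_true]
    ring
  have h5 : lam * ∑ σ, x σ ^ 2 ≤ ∑ σ, (A σ σ * x σ ^ 2 - ∑ τ, B σ τ) := by
    rw [Finset.mul_sum]
    apply Finset.sum_le_sum
    intro σ _
    by_cases hP : P σ
    · have h6 := mul_le_mul_of_nonneg_right (hrow σ hP) (sq_nonneg (x σ))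
      refine h6.trans (le_of_eq ?_)
      rw [sub_mul, Finset.sum_mul]
      congr 1
      apply Finset.sum_congr rfl
      intro τ _
      simp only [hB]
      by_cases h7 : τ ≠ σ ∧ P τ
      · rw [if_pos h7, if_pos ⟨h7.1, h7.2, hP⟩]
      · rw [if_neg h7, if_neg (fun h => h7 ⟨h.1, h.2.1⟩), zero_mul]
    · rw [hx σ hP]
      have : ∑ τ, B σ τ = 0 := by
        apply Finset.sum_eq_zero
        intro τ _
        simp only [hB]
        rw [if_neg]
        rintro ⟨_, _, c⟩
        exact hP c
      rw [this]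
      simp
  rw [h4, h1] at h3
  exact le_of_mul_le_mul_right (h5.trans h3) hsq

end Pool.Agent.R804.TU
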