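import Pool.Agent.R804.TU.Defs

/-!
# The differential and its adjoint as operators on functions of labelled resolutions
-/

set_option autoImplicit false

namespace Pool.Agent.R804.TU

open Finset

/-- Functions on lists of circles. -/
abbrev Fn := List Circ → ℝ

/-- Merging the circle `β` into the first circle of the list. -/
def mg (β : Circ) : List Circ → Fn → ℝ
  | [], _ => 0
  | γ :: w, f => if β.2 || γ.2 then f ((β.1 + γ.1 + 1, β.2 && γ.2) :: w) else 0

/-- The adjoint of the differential. -/
def dT : Fn → List Circ → ℝ
  | _, [] => 0
  | f, β :: w => (-1) ^ β.1 * (mg β w f + dT (fun u => f (β :: u)) w)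

/-- Splitting a circle with label `b` into two. -/
def Sp (b : Bool) (i j : ℕ) (G : Circ → Circ → ℝ) : ℝ :=
  if b then G (i, true) (j, true) else G (i, true) (j, false) + G (i, false) (j, true)

/-- The differential. -/
def dS : Fn → List Circ → ℝ
  | _, [] => 0
  | f, β :: w => (∑ a ∈ range β.1, (-1) ^ a * Sp β.2 a (β.1 - 1 - a) (fun x y => f (x :: y :: w)))
      + (-1) ^ β.1 * dS (fun u => f (β :: u)) w

theorem dT_nil (f : Fn) : dT f [] = 0 := rfl
theorem dS_nil (f : Fn) : dS f [] = 0 := rfl
theorem dT_cons (f : Fn) (β : Circ) (w : List Circ) :
    dT f (β :: w) = (-1) ^ β.1 * (mg β w f + dT (fun u => f (β :: u)) w) := rfl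
theorem dS_cons (f : Fn) (β : Circ) (w : List Circ) :
    dS f (β :: w) =
      (∑ a ∈ range β.1, (-1) ^ a * Sp β.2 a (β.1 - 1 - a) (fun x y => f (x :: y :: w)))
      + (-1) ^ β.1 * dS (fun u => f (β :: u)) w := rfl

theorem dT_eq_terms (f : Fn) (w : List Circ) :
    ((dTerms w).map (fun t => (t.1 : ℝ) * f t.2)).sum = dT f w := by
  induction w generalizing f with
  | nil => rfl
  | cons β w ih =>
    rcases w with _ | ⟨γ, w⟩
    · simp [dTerms, dT, mg]
    · obtain ⟨m, a⟩ := β
      obtain ⟨m', a'⟩ := γ
      rw [dT_cons, ← ih (fun u => f ((m, a) :: u))]
      rw [dTerms, List.map_append, List.sum_append, mul_add]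
      congr 1
      · by_cases h : (a || a') = true
        · simp [h, mg]
        · simp [h, mg]
      · rw [List.map_map, ← List.sum_map_mul_left]
        congr 1
        apply List.map_congr_left
        intro t _
        simp only [Function.comp_apply]
        push_cast
        ring

/-! ### Linearity -/

theorem mg_add (β : Circ) (w : List Circ) (f g : Fn) :
    mg β w (fun u => f u + g u) = mg β w f + mg β w g := by
  rcases w with _ | ⟨γ, w⟩
  · simp [mg]
  · simp only [mg]; split_ifs <;> simp

theorem mg_smul (β : Circ) (w : List Circ) (c : ℝ) (f : Fn) :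
    mg β w (fun u => c * f u) = c * mg β w f := by
  rcases w with _ | ⟨γ, w⟩
  · simp [mg]
  · simp only [mg]; split_ifs <;> simp

theorem dT_add (f g : Fn) (w : List Circ) : dT (fun u => f u + g u) w = dT f w + dT g w := by
  induction w generalizing f g with
  | nil => simp [dT]
  | cons β w ih =>
    rw [dT_cons, dT_cons, dT_cons, ih, mg_add]; ring

theorem dT_smul (c : ℝ) (f : Fn) (w : List Circ) : dT (fun u => c * f u) w = c * dT f w := by
  induction w generalizing f with
  | nil => simp [dT]
  | cons β w ih =>
    rw [dT_cons, dT_cons, ih, mg_smul]; ring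

theorem dT_zero (w : List Circ) : dT (fun _ => 0) w = 0 := by
  have := dT_smul 0 (fun _ => 0) w
  simpa using this

theorem dT_sum {ι : Type} (s : Finset ι) (F : ι → Fn) (w : List Circ) :
    dT (fun u => ∑ i ∈ s, F i u) w = ∑ i ∈ s, dT (F i) w := by
  classical
  induction s using Finset.induction_on with
  | empty => simp [dT_zero]
  | insert a s ha ih =>
    simp only [Finset.sum_insert ha]
    rw [dT_add, ih]

theorem Sp_add (b : Bool) (i j : ℕ) (G H : Circ → Circ → ℝ) :
    Sp b i j (fun x y => G x y + H x y) = Sp b i j G + Sp b i j H := by
  unfold Sp; split_ifs <;> ring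

theorem Sp_smul (b : Bool) (i j : ℕ) (c : ℝ) (G : Circ → Circ → ℝ) :
    Sp b i j (fun x y => c * G x y) = c * Sp b i j G := by
  unfold Sp; split_ifs <;> ring

theorem dS_add (f g : Fn) (w : List Circ) : dS (fun u => f u + g u) w = dS f w + dS g w := by
  induction w generalizing f g with
  | nil => simp [dS]
  | cons β w ih =>
    rw [dS_cons, dS_cons, dS_cons, ih]
    simp only [Sp_add, mul_add, Finset.sum_add_distrib]
    ring

theorem dS_smul (c : ℝ) (f : Fn) (w : List Circ) : dS (fun u => c * f u) w = c * dS f w := by
  induction w generalizing f with
  | nil => simp [dS]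
  | cons β w ih =>
    rw [dS_cons, dS_cons, ih]
    simp only [Sp_smul, mul_add, Finset.mul_sum]
    congr 1
    · apply Finset.sum_congr rfl; intro a _; ring
    · ring

theorem dS_zero (w : List Circ) : dS (fun _ => 0) w = 0 := by
  have := dS_smul 0 (fun _ => 0) w
  simpa using this

theorem dS_sum {ι : Type} (s : Finset ι) (F : ι → Fn) (w : List Circ) :
    dS (fun u => ∑ i ∈ s, F i u) w = ∑ i ∈ s, dS (F i) w := by
  classical
  induction s using Finset.induction_on with
  | empty => simp [dS_zero]
  | insert a s ha ih =>
    simp only [Finset.sum_insert ha]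
    rw [dS_add, ih]

theorem dT_Sp (b : Bool) (i j : ℕ) (F : Circ → Circ → Fn) (w : List Circ) :
    dT (fun u => Sp b i j (fun x y => F x y u)) w = Sp b i j (fun x y => dT (F x y) w) := by
  unfold Sp
  split_ifs
  · rfl
  · rw [dT_add]

/-! ### Adjointness -/

/-- The indicator function of a list. -/
def dl (w : List Circ) : Fn := fun u => if u = w then 1 else 0

theorem dl_cons (β γ : Circ) (w : List Circ) :
    (fun u => dl (γ :: w) (β :: u)) = fun u => (if β = γ then (1 : ℝ) else 0) * dl w u := by
  funext u
  unfold dl
  by_cases h : β = γ
  · simp [h]
  · simp [h]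

theorem adj (σ ρ : List Circ) : dT (dl ρ) σ = dS (dl σ) ρ := by
  induction σ generalizing ρ with
  | nil =>
    rcases ρ with _ | ⟨β, w⟩
    · rfl
    · rw [dT_nil, dS_cons]
      have h0 : (fun u => dl [] (β :: u)) = fun _ => (0 : ℝ) := by
        funext u; simp [dl]
      rw [h0, dS_zero]
      have : ∀ a, Sp β.2 a (β.1 - 1 - a) (fun x y => dl [] (x :: y :: w)) = 0 := by
        intro a; unfold Sp; simp [dl]
      simp [this]
  | cons β' w' ih =>
    rcases ρ with _ | ⟨β, w⟩
    · rw [dS_nil, dT_cons]
      have h0 : (fun u => dl [] (β' :: u)) = fun _ => (0 : ℝ) := by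
        funext u; simp [dl]
      rw [h0, dT_zero]
      rcases w' with _ | ⟨γ, w''⟩
      · simp [mg]
      · simp [mg, dl]
    · rw [dT_cons, dS_cons, dl_cons, dl_cons, dT_smul, dS_smul, ih w]
      rw [mul_add]
      congr 1
      · rcases w' with _ | ⟨γ, w''⟩
        · simp only [mg, mul_zero]
          symm
          apply Finset.sum_eq_zero
          intro a _
          unfold Sp
          simp [dl]
        · obtain ⟨m, a⟩ := β'
          obtain ⟨m', a'⟩ := γ
          obtain ⟨k, c⟩ := β
          simp only [mg]
          by_cases hw : w'' = w
          swap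
          · have h1 : ∀ x y : Circ, dl ((m, a) :: (m', a') :: w'') (x :: y :: w) = 0 := by
              intro x y; unfold dl; rw [if_neg]; simp; intro _ _; exact fun h => hw h.symm
            have h2 : dl ((k, c) :: w) ((m + m' + 1, a && a') :: w'') = 0 := by
              unfold dl; rw [if_neg]; simp; intro _ _; exact hw
            simp only [h1, h2, Sp]
            simp
          subst hw
          by_cases hk : k = m + m' + 1
          · subst hk
            rw [Finset.sum_eq_single m]
            · have e : m + m' + 1 - 1 - m = m' := by omega
              rw [e]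
              cases a <;> cases a' <;> cases c <;> simp [Sp, dl]
            · intro i _ hi
              have : ∀ (p q : Bool) (y : Circ), dl ((m, a) :: (m', a') :: w'') ((i, p) :: y :: w'') = 0 := by
                intro p q y
                unfold dl
                rw [if_neg]
                intro h
                simp only [List.cons.injEq, Prod.mk.injEq] at h
                exact hi h.1.1
              unfold Sp
              split_ifs <;> simp [this _ true]
            · intro h
              exfalso
              apply h
              simp only [Finset.mem_range]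
              omega
          · have h2 : dl ((k, c) :: w'') ((m + m' + 1, a && a') :: w'') = 0 := by
              unfold dl
              rw [if_neg]
              intro h
              simp only [List.cons.injEq, Prod.mk.injEq] at h
              exact hk h.1.1.symm
            rw [h2]
            rw [Finset.sum_eq_zero]
            · simp
            · intro i hi
              have hi' : i < k := Finset.mem_range.1 hi
              have : ∀ (p q : Bool), dl ((m, a) :: (m', a') :: w'') ((i, p) :: (k - 1 - i, q) :: w'') = 0 := by
                intro p q
                unfold dl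
                rw [if_neg]
                intro h
                simp only [List.cons.injEq, Prod.mk.injEq] at h
                have h1 := h.1.1
                have h2 := h.2.1.1
                omega
              unfold Sp
              split_ifs <;> simp [this]
      · by_cases h : β' = β
        · subst h; simp
        · have h' : ¬ β = β' := fun e => h e.symm
          simp [h, h']

end Pool.Agent.R804.TU
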