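import Pool.Agent.R804.TU.Cut

/-!
# The row inequality for lists with at least three labels `𝟏`
-/

set_option autoImplicit false

namespace Pool.Agent.R804.TU

open Finset Real

/-- The value of `c` at the position of the first label `𝟏`. -/
noncomputable def OO (c : ℕ → ℝ) : ℕ → List Circ → ℝ
  | _, [] => 0
  | p, β :: w => if β.2 then c p else OO c (p + 1) w

/-- `j` circles `C_i` with label `X`. -/
def Xs (j : ℕ) : List Circ := List.replicate j (0, false)

theorem Xs_succ (j : ℕ) : Xs (j + 1) = (0, false) :: Xs j := rfl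
theorem Xs_zero : Xs 0 = [] := rfl

theorem eq_Xs (w : List Circ) (h1 : hdeg w = 0) (h2 : ones w = 0) : ∃ j, w = Xs j := by
  induction w with
  | nil => exact ⟨0, rfl⟩
  | cons β w ih =>
    rw [hdeg_cons] at h1
    rw [ones_cons] at h2
    obtain ⟨j, hj⟩ := ih (by omega) (by omega)
    refine ⟨j + 1, ?_⟩
    rw [Xs_succ, hj]
    obtain ⟨m, b⟩ := β
    have hb : b = false := by
      cases b
      · rfl
      · simp at h2
    have hm : m = 0 := by simp at h1; omega
    rw [hb, hm]

theorem eq_Xs_one (w : List Circ) (h1 : hdeg w = 0) (h2 : ones w = 1) :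
    ∃ i j, w = Xs i ++ (0, true) :: Xs j := by
  induction w with
  | nil => simp [ones_nil] at h2
  | cons β w ih =>
    rw [hdeg_cons] at h1
    rw [ones_cons] at h2
    obtain ⟨m, b⟩ := β
    have hm : m = 0 := by simp at h1; omega
    cases b
    · obtain ⟨i, j, hij⟩ := ih (by omega) (by simpa using h2)
      exact ⟨i + 1, j, by rw [hij, hm]; rfl⟩
    · obtain ⟨j, hj⟩ := eq_Xs w (by omega) (by simp at h2; omega)
      exact ⟨0, j, by rw [hj, hm]; rfl⟩

theorem Eg_const_Xs (k : ℝ) (j : ℕ) : Eg (fun _ => k) (Xs j) = 0 := by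
  induction j with
  | zero => rfl
  | succ j ih =>
    rcases j with _ | j
    · rfl
    · rw [Xs_succ, Xs_succ]
      simp only [Eg]
      rw [← Xs_succ, ih]
      simp [share, pd, half, PP]

theorem OO_Xs (c : ℕ → ℝ) (i : ℕ) (w : List Circ) :
    ∀ p, OO c p (Xs i ++ (0, true) :: w) = c (p + i) := by
  induction i with
  | zero => intro p; simp [Xs_zero, OO]
  | succ i ih =>
    intro p
    rw [Xs_succ, List.cons_append]
    simp only [OO, Bool.false_eq_true, if_false]
    rw [ih]; congr 1; ring

theorem Eg_OO (c : ℕ → ℝ) (i j : ℕ) : ∀ p,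
    Eg (OO c p) (Xs i ++ (0, true) :: Xs j)
      = (if 0 < i then c (p + i) - c (p + i - 1) else 0)
        + (if 0 < j then c (p + i) - c (p + i + 1) else 0) := by
  induction i with
  | zero =>
    intro p
    rw [Xs_zero, List.nil_append]
    rcases j with _ | j
    · simp [Xs_zero, Eg]
    · rw [Xs_succ]
      simp only [Eg]
      have : (fun u => OO c p ((0, true) :: u)) = fun _ => c p := by
        funext u; simp [OO]
      rw [this, ← Xs_succ, Eg_const_Xs]
      simp [share, pd, half, PP, OO]
  | succ i ih =>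
    intro p
    have hl : (fun u => OO c p ((0, false) :: u)) = OO c (p + 1) := by
      funext u; simp [OO]
    rcases i with _ | i
    · rw [Xs_succ, Xs_zero, List.cons_append, List.nil_append]
      simp only [Eg]
      rw [hl]
      have h := ih (p + 1)
      rw [Xs_zero, List.nil_append] at h
      rw [h]
      simp [share, pd, half, PP, OO]
    · rw [Xs_succ, Xs_succ, List.cons_append, List.cons_append]
      simp only [Eg]
      rw [hl]
      have h := ih (p + 1)
      rw [Xs_succ, List.cons_append] at h
      rw [h]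
      simp only [share, pd, half, PP, Bool.or_self, Bool.false_eq_true, if_false, Nat.cast_zero,
        Finset.range_zero, Finset.sum_empty, add_zero, zero_mul, sub_zero, zero_add,
        if_true, Nat.zero_lt_succ]
      rw [show p + 1 + (i + 1) = p + (i + 1 + 1) by ring]

/-- The weight of the part before the second label `𝟏`. -/
noncomputable def vL (u : List Circ) : ℝ :=
  if hdeg u = 0 then OO (cp (2 * size u + 1)) 0 u else V (sp (2 * size u + 1)) 0 u

theorem size_Xs (j : ℕ) : size (Xs j) = j := by
  induction j with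
  | zero => rfl
  | succ j ih => rw [Xs_succ, size_cons, ih]; ring

theorem vL_pos (u : List Circ) (h1 : ones u = 1) : 0 < vL u := by
  unfold vL
  split_ifs with h
  · obtain ⟨i, j, hij⟩ := eq_Xs_one u h h1
    have hs : size u = i + 1 + j := by
      rw [hij, size_append, size_cons, size_Xs, size_Xs]; ring
    rw [hs]
    rw [hij, OO_Xs]
    rw [zero_add]
    exact cp_pos _ _ (by omega)
  · have hep : ep 0 u = size u + 1 := by rw [ep_eq, h1]; ring
    have hx : (0 : ℝ) < 2 * size u + 1 := by positivity
    have hM : ((ep 0 u : ℕ) : ℝ) ≤ 2 * size u + 1 := by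
      rw [hep]; push_cast
      have : (0 : ℝ) ≤ size u := Nat.cast_nonneg _
      linarith
    refine V_pos (prof_sp hx _ hM) ?_ u 0 (le_refl _) (Nat.pos_of_ne_zero h)
    intro i h0 hi
    refine sp_pos hx i h0 ?_
    have : (i : ℝ) < ((ep 0 u : ℕ) : ℝ) := by exact_mod_cast hi
    linarith

/-- The energy of the part before the second label `𝟏`. -/
theorem energy_left (u : List Circ) (β : Circ) (h1 : ones (u ++ [β]) = 1) :
    rate (2 * size (u ++ [β]) + 1) * vL (u ++ [β]) ≤ Eg vL (u ++ [β])
      + hf (u ++ [β]) * vL (u ++ [β]) + (if β.2 then vL (u ++ [β]) else 0) := by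
  set w := u ++ [β] with hw
  have hwne : w ≠ [] := by rw [hw]; simp
  have hpos := vL_pos w h1
  have hlast : 0 ≤ (if β.2 then vL w else 0) := by split_ifs; exacts [hpos.le, le_refl _]
  by_cases h : hdeg w = 0
  · have hE : Eg vL w = Eg (OO (cp (2 * size w + 1)) 0) w := by
      apply Eg_congr
      intro v hv
      unfold vL
      rw [if_pos (by rw [hv.2.1]; exact h)]
      rw [size_eq v, size_eq w, hv.1, hv.2.1]
    have hv : vL w = OO (cp (2 * size w + 1)) 0 w := by unfold vL; rw [if_pos h]
    obtain ⟨i, j, hij⟩ := eq_Xs_one w h h1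
    have hs : size w = i + 1 + j := by
      rw [hij, size_append, size_cons, size_Xs, size_Xs]; ring
    have hhf : 0 ≤ hf w * vL w := by
      apply mul_nonneg _ hpos.le
      rcases w with _ | ⟨γ, w⟩
      · exact le_refl _
      · exact half_nonneg γ
    have hx : (2 * (size w : ℝ) + 1) ≠ 0 := by positivity
    set c := cp (2 * size w + 1) with hc
    have hcrec := cp_rec (2 * size w + 1) hx
    have hc01 := cp_zero_one (2 * size w + 1) hx
    have hcend := cp_end (size w)
    rw [← hc] at hcrec hc01 hcend
    have hb : j = 0 → β.2 = true := by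
      intro hj
      rw [hj, Xs_zero] at hij
      have : (u ++ [β]).getLast? = (Xs i ++ [(0, true)]).getLast? := by rw [← hw, hij]
      simp at this
      rw [this]
    have hvc : vL w = c i := by rw [hv, hij, OO_Xs, zero_add]
    rw [hE, hij, Eg_OO, ← hij, hvc]
    rw [hvc] at hhf hlast
    rw [zero_add]
    rcases Nat.eq_zero_or_pos j with hj | hj
    · rw [if_neg (by omega : ¬ 0 < j), if_pos (hb hj), add_zero]
      have hi1 : i + 1 = size w := by omega
      rcases i with _ | i
      · rw [if_neg (by omega)]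
        have : c 1 = 0 := by rw [← hcend]; congr 1
        rw [this] at hc01
        linarith
      · rw [if_pos (by omega)]
        have h2 := hcrec i
        have : c (i + 2) = 0 := by rw [← hcend]; congr 1
        rw [this] at h2
        rw [show i + 1 - 1 = i by omega]
        linarith
    · rw [if_pos hj]
      rcases i with _ | i
      · rw [if_neg (by omega)]
        rw [zero_add]
        linarith
      · rw [if_pos (by omega)]
        have h2 := hcrec i
        rw [show i + 1 - 1 = i by omega, show i + 1 + 1 = i + 2 by ring]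
        linarith
  · have hE : Eg vL w = Eg (V (sp (2 * size w + 1)) 0) w := by
      apply Eg_congr
      intro v hv
      unfold vL
      rw [if_neg (by rw [hv.2.1]; exact h)]
      rw [size_eq v, size_eq w, hv.1, hv.2.1]
    have hv : vL w = V (sp (2 * size w + 1)) 0 w := by unfold vL; rw [if_neg h]
    have hep : ep 0 w = size w + 1 := by rw [ep_eq, h1]; ring
    have hx : (0 : ℝ) < 2 * size w + 1 := by positivity
    have hM : ((ep 0 w : ℕ) : ℝ) ≤ 2 * size w + 1 := by
      rw [hep]; push_cast
      have : (0 : ℝ) ≤ size w := Nat.cast_nonneg _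
      linarith
    have := energy_free w hwne h1.le (prof_sp hx _ hM) (sp_zero _) (by
      intro i hi
      rw [hep] at hi ⊢
      exact sp_mono (size w) i hi)
    rw [hE]
    rw [hv] at hlast ⊢
    linarith

/-- The weights for the cut at the second label `𝟏`. -/
noncomputable def rL (σ τ : List Circ) : ℝ :=
  if suf 1 τ = suf 1 σ then vL (pre 1 τ) / vL (pre 1 σ) else om τ / om σ

theorem rL_self (σ : List Circ) (h : 1 < ones σ) : rL σ σ = 1 := by
  unfold rL
  rw [if_pos rfl]
  exact div_self (vL_pos _ (ones_pre σ 1 h.le)).ne'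

theorem rL_pos (σ τ : List Circ) (h : 1 < ones σ) (h' : 1 < ones τ) : 0 < rL σ τ := by
  unfold rL
  split_ifs
  · exact div_pos (vL_pos _ (ones_pre τ 1 h'.le)) (vL_pos _ (ones_pre σ 1 h.le))
  · exact div_pos (om_pos _) (om_pos _)

theorem rL_mul (σ τ : List Circ) (h : 1 < ones σ) (h' : 1 < ones τ) : rL σ τ * rL τ σ = 1 := by
  have h1 := (vL_pos _ (ones_pre τ 1 h'.le)).ne'
  have h2 := (vL_pos _ (ones_pre σ 1 h.le)).ne'
  have h3 := (om_pos σ).ne'
  have h4 := (om_pos τ).ne'
  unfold rL
  by_cases h : suf 1 τ = suf 1 σ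
  · rw [if_pos h, if_pos h.symm]; field_simp
  · rw [if_neg h, if_neg (fun e => h e.symm)]; field_simp

/-- A list that ends as `σ` does after the cut and has the cut of `σ` gets the bulk weight. -/
theorem rL_bulk (σ τ : List Circ) (h : 1 < ones σ)
    (hc : suf 1 τ = suf 1 σ → τ = σ) : rL σ τ = om τ / om σ := by
  by_cases h1 : suf 1 τ = suf 1 σ
  · rw [hc h1, rL_self σ h, div_self (om_pos _).ne']
  · unfold rL; rw [if_neg h1]

theorem row_left (σ : List Circ) (h : 1 < ones σ) :
    rate (2 * size (pre 1 σ) + 1) ≤ DD σ - NS (rL σ) σ := by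
  obtain ⟨u, β, x, t, h1, h2, h3, h4, h5⟩ := decomp σ h
  have hself := rL_self σ h
  have hDN := DD_NS (rL σ) σ
  rw [hself, mul_one, mul_one] at hDN
  rw [hDN]
  have hvp := vL_pos _ h5
  -- first part
  have p1 : Eg (fun v => rL σ (v ++ x :: t)) (u ++ [β])
      = (1 / vL (u ++ [β])) * Eg vL (u ++ [β]) := by
    rw [← Eg_smul]
    apply Eg_congr
    intro v hv
    have hv1 : ones v = 1 := by rw [hv.2.2, h5]
    obtain ⟨c1, c2⟩ := cut_eq v x t h2 1 hv1
    unfold rL
    rw [c1, c2, h4, h3, if_pos rfl]
    ring
  -- junction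
  have bulk : ∀ τ : List Circ, τ.length = σ.length →
      (suf 1 τ = x :: t → τ = σ) → rL σ τ = om τ / om σ := by
    intro τ _ hc
    apply rL_bulk σ τ h
    rw [h4]; exact hc
  have p2a : PP β x (fun y z => rL σ (u ++ y :: z :: t))
      = PP β x (fun y z => (1 / om σ) * om (u ++ y :: z :: t)) := by
    apply PP_congr
    intro y z e1 e2
    rw [bulk (u ++ y :: z :: t) (by rw [h1]; simp)]
    · ring
    · intro hs
      have hps := pre_suf (u ++ y :: z :: t) 1
      rw [hs] at hps
      have e3 : (u ++ [y]) ++ z :: t = u ++ y :: z :: t := by simp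
      rw [← e3] at hps
      have hinj := List.append_inj' hps (by simp)
      have hz : x = z := by
        have := hinj.2
        simp at this
        exact this
      subst hz
      have hy : y = β := by
        have ha : y.1 = β.1 := by omega
        have hb : y.2 = β.2 := by
          unfold lab at e2
          cases hy2 : y.2 <;> cases hb2 : β.2 <;> simp_all
        exact Prod.ext ha hb
      rw [hy, h1]
  have p2 : share β x * rL σ (u ++ β :: x :: t) - PP β x (fun y z => rL σ (u ++ y :: z :: t))
      = (1 / om σ) * ((om u * om t)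
        * (share β x * (co β * co x) - PP β x (fun y z => co y * co z))) := by
    rw [p2a, PP_smul, ← h1, hself]
    have : PP β x (fun y z => om (u ++ y :: z :: t))
        = (om u * om t) * PP β x (fun y z => co y * co z) := by
      rw [← PP_smul]
      apply PP_congr
      intro y z _ _
      rw [om_append, om_cons, om_cons]; ring
    rw [this]
    have ho : om σ = om u * (co β * (co x * om t)) := by rw [h1, om_append, om_cons, om_cons]
    have hne := (om_pos σ).ne'
    field_simp
    rw [ho]; ring
  have p2nn : 0 ≤ share β x * rL σ (u ++ β :: x :: t)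
      - PP β x (fun y z => rL σ (u ++ y :: z :: t)) := by
    rw [p2]
    exact mul_nonneg (by have := om_pos σ; positivity)
      (mul_nonneg (mul_pos (om_pos _) (om_pos _)).le (pair_om_nonneg _ _))
  have p2b : β.2 = true → 1 ≤ share β x * rL σ (u ++ β :: x :: t)
      - PP β x (fun y z => rL σ (u ++ y :: z :: t)) := by
    intro hb
    rw [PP_tt β x ⟨hb, h2⟩, ← h1, hself]
    unfold share pd
    rw [hb]
    have := half_nonneg β
    have := half_nonneg x
    simp only [Bool.true_or, if_true]
    linarith
  -- last part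
  have p3 : Eg (fun v => rL σ (u ++ β :: v)) (x :: t)
      = (om (u ++ [β]) / om σ) * Eg om (x :: t) := by
    rw [← Eg_smul]
    apply Eg_congr
    intro v hv
    rw [bulk (u ++ β :: v) (by rw [h1]; simp [hv.1])]
    · have : om (u ++ β :: v) = om (u ++ [β]) * om v := by
        rw [← om_append]; congr 1; simp
      rw [this]; ring
    · intro hs
      have hps := pre_suf (u ++ β :: v) 1
      rw [hs] at hps
      have e3 : (u ++ [β]) ++ v = u ++ β :: v := by simp
      rw [← e3] at hps
      have hinj := List.append_inj' hps (by rw [hv.1])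
      rw [← hinj.2, h1]
  have p3nn : 0 ≤ Eg (fun v => rL σ (u ++ β :: v)) (x :: t) := by
    rw [p3]
    exact mul_nonneg (div_pos (om_pos _) (om_pos _)).le (Eg_om_nonneg _)
  have hEg : Eg (rL σ) σ = Eg (rL σ) (u ++ β :: x :: t) := by rw [← h1]
  rw [hEg, Eg_append, p1]
  have hhf : hf σ = hf (u ++ [β]) := by
    rw [h1]
    rcases u with _ | ⟨γ, u⟩ <;> rfl
  have hhl := hl_nonneg σ
  have hen := energy_left u β h5
  rw [h3, hhf]
  have hen' : rate (2 * size (u ++ [β]) + 1) ≤ 1 / vL (u ++ [β]) * Eg vL (u ++ [β])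
      + hf (u ++ [β]) + (if β.2 then 1 else 0) := by
    have h6 : rate (2 * size (u ++ [β]) + 1)
        = (rate (2 * size (u ++ [β]) + 1) * vL (u ++ [β])) / vL (u ++ [β]) := by
      field_simp
    rw [h6]
    have h7 : 1 / vL (u ++ [β]) * Eg vL (u ++ [β]) + hf (u ++ [β]) + (if β.2 then 1 else 0)
        = (Eg vL (u ++ [β]) + hf (u ++ [β]) * vL (u ++ [β])
          + (if β.2 then vL (u ++ [β]) else 0)) / vL (u ++ [β]) := by
      split_ifs <;> (field_simp; try ring)
    rw [h7]
    exact div_le_div_of_nonneg_right hen hvp.le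
  by_cases hb : β.2 = true
  · have := p2b hb
    rw [if_pos hb] at hen'
    linarith
  · rw [if_neg hb] at hen'
    linarith

theorem row_right (σ : List Circ) (h : 1 < ones σ) :
    rate (2 * size (pre 1 σ.reverse) + 1)
      ≤ DD σ - NS (fun τ => rL σ.reverse τ.reverse) σ := by
  have h' : 1 < ones σ.reverse := by rw [ones_rev]; exact h
  have h1 := row_left σ.reverse h'
  have h2 := DD_NS_rev (rL σ.reverse) σ
  rw [rL_self _ h', mul_one, mul_one] at h2
  rw [h2]
  exact h1

/-- The weights for lists with at least three labels `𝟏`. -/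
noncomputable def rr (σ τ : List Circ) : ℝ :=
  if 2 * size (pre 1 σ) + 1 ≤ size σ then rL σ τ else rL σ.reverse τ.reverse

theorem rr_self (σ : List Circ) (h : 3 ≤ ones σ) : rr σ σ = 1 := by
  unfold rr
  split_ifs
  · exact rL_self σ (by omega)
  · exact rL_self _ (by rw [ones_rev]; omega)

theorem rr_pos (σ τ : List Circ) (h : 3 ≤ ones σ) (h' : 3 ≤ ones τ) : 0 < rr σ τ := by
  unfold rr
  split_ifs
  · exact rL_pos σ τ (by omega) (by omega)
  · exact rL_pos _ _ (by rw [ones_rev]; omega) (by rw [ones_rev]; omega)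

theorem rr_mul_aux (σ τ : List Circ) (h : 3 ≤ ones σ)
    (hs : size σ = size τ) (c1 : 2 * size (pre 1 σ) + 1 ≤ size σ)
    (c2 : ¬ 2 * size (pre 1 τ) + 1 ≤ size τ) :
    rL σ τ * rL τ.reverse σ.reverse = 1 := by
  have e1 : rL σ τ = om τ / om σ := by
    unfold rL
    rw [if_neg]
    intro e
    apply c2
    have a := congrArg size (pre_suf σ 1)
    have b := congrArg size (pre_suf τ 1)
    rw [size_append] at a b
    rw [e] at b
    omega
  have e2 : rL τ.reverse σ.reverse = om σ / om τ := by
    unfold rL
    rw [if_neg, om_rev, om_rev]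
    intro e
    apply c2
    rw [← pre_of_suf_rev σ τ h e, ← hs]
    exact c1
  rw [e1, e2]
  have h3 := (om_pos σ).ne'
  have h4 := (om_pos τ).ne'
  field_simp

theorem rr_mul (σ τ : List Circ) (h : 3 ≤ ones σ) (h' : 3 ≤ ones τ) (hs : size σ = size τ) :
    rr σ τ * rr τ σ = 1 := by
  unfold rr
  by_cases c1 : 2 * size (pre 1 σ) + 1 ≤ size σ <;> by_cases c2 : 2 * size (pre 1 τ) + 1 ≤ size τ
  · rw [if_pos c1, if_pos c2]; exact rL_mul σ τ (by omega) (by omega)
  · rw [if_pos c1, if_neg c2]; exact rr_mul_aux σ τ h hs c1 c2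
  · rw [if_neg c1, if_pos c2, mul_comm]; exact rr_mul_aux τ σ h' hs.symm c2 c1
  · rw [if_neg c1, if_neg c2]
    exact rL_mul _ _ (by rw [ones_rev]; omega) (by rw [ones_rev]; omega)

theorem row_three (σ : List Circ) (h : 3 ≤ ones σ) :
    rate (size σ + 1) ≤ DD σ - NS (rr σ) σ := by
  by_cases c1 : 2 * size (pre 1 σ) + 1 ≤ size σ
  · have e : rr σ = rL σ := by funext τ; unfold rr; rw [if_pos c1]
    rw [e]
    refine (rate_anti ?_ ?_).trans (row_left σ (by omega))
    · have : (0 : ℝ) ≤ size (pre 1 σ) := Nat.cast_nonneg _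
      linarith
    · have : ((2 * size (pre 1 σ) + 1 : ℕ) : ℝ) ≤ (size σ : ℕ) := by exact_mod_cast c1
      push_cast at this
      linarith
  · have e : rr σ = fun τ => rL σ.reverse τ.reverse := by
      funext τ; unfold rr; rw [if_neg c1]
    rw [e]
    have h2 := two_sides σ h
    have c2 : 2 * size (pre 1 σ.reverse) + 1 ≤ size σ := by omega
    refine (rate_anti ?_ ?_).trans (row_right σ (by omega))
    · have : (0 : ℝ) ≤ size (pre 1 σ.reverse) := Nat.cast_nonneg _
      linarith
    · have : ((2 * size (pre 1 σ.reverse) + 1 : ℕ) : ℝ) ≤ (size σ : ℕ) := by exact_mod_cast c2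
      push_cast at this
      linarith

end Pool.Agent.R804.TU
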