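import Pool.Agent.R804.TU.Walls

/-!
# Trigonometric profiles
-/

set_option autoImplicit false

namespace Pool.Agent.R804.TU

open Finset Real

/-- The rate of a profile of length `x`. -/
noncomputable def rate (x : ℝ) : ℝ := 2 - 2 * cos (π / x)

theorem rate_nonneg (x : ℝ) : 0 ≤ rate x := by
  unfold rate
  have := cos_le_one (π / x)
  linarith

theorem rate_anti {x y : ℝ} (hx : 1 ≤ x) (hxy : x ≤ y) : rate y ≤ rate x := by
  unfold rate
  have hx0 : 0 < x := by linarith
  have hy0 : 0 < y := by linarith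
  have h1 : π / y ≤ π / x := by
    apply div_le_div_of_nonneg_left pi_pos.le hx0 hxy
  have h2 : π / x ≤ π := by
    rw [div_le_iff₀ hx0]; nlinarith [pi_pos]
  have := cos_le_cos_of_nonneg_of_le_pi (by positivity) h2 h1
  linarith

/-- The sine profile. -/
noncomputable def sp (x : ℝ) (i : ℕ) : ℝ := sin (π * i / x)

theorem sp_rec (x : ℝ) (i : ℕ) : sp x i + sp x (i + 2) = (2 - rate x) * sp x (i + 1) := by
  unfold sp rate
  have h1 : π * ((i + 1 : ℕ) : ℝ) / x = π * i / x + π / x := by push_cast; ring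
  have h2 : π * ((i + 2 : ℕ) : ℝ) / x = (π * i / x + π / x) + π / x := by push_cast; ring
  have h3 : π * (i : ℝ) / x = (π * i / x + π / x) - π / x := by ring
  rw [h1, h2]
  conv_lhs => rw [h3]
  rw [sub_add_cancel, sin_sub, sin_add (π * i / x + π / x)]
  ring

theorem sp_zero (x : ℝ) : sp x 0 = 0 := by simp [sp]

theorem sp_self {M : ℕ} (h : 0 < M) : sp M M = 0 := by
  unfold sp
  have : (M : ℝ) ≠ 0 := by positivity
  rw [mul_div_assoc, div_self this, mul_one, sin_pi]

theorem sp_nonneg {x : ℝ} (hx : 0 < x) (i : ℕ) (h : (i : ℝ) ≤ x) : 0 ≤ sp x i := by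
  unfold sp
  apply sin_nonneg_of_nonneg_of_le_pi (by positivity)
  rw [div_le_iff₀ hx]
  exact mul_le_mul_of_nonneg_left h pi_pos.le

theorem sp_pos {x : ℝ} (hx : 0 < x) (i : ℕ) (h0 : 0 < i) (h : (i : ℝ) < x) : 0 < sp x i := by
  unfold sp
  apply sin_pos_of_pos_of_lt_pi
  · have : (0 : ℝ) < i := by exact_mod_cast h0
    positivity
  · rw [div_lt_iff₀ hx]
    exact mul_lt_mul_of_pos_left h pi_pos

theorem prof_sp {x : ℝ} (hx : 0 < x) (M : ℕ) (h : (M : ℝ) ≤ x) : Prof (sp x) (rate x) M :=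
  prof_of_rec (rate_nonneg x) (sp_rec x) fun i hi =>
    sp_nonneg hx i ((by exact_mod_cast hi : (i : ℝ) ≤ M).trans h)

/-- For `x = 2 p + 1` the profile increases up to `p + 1`. -/
theorem sp_mono (p : ℕ) (i : ℕ) (hi : i ≤ p + 1) :
    sp (2 * p + 1) i ≤ sp (2 * p + 1) (p + 1 : ℕ) := by
  have hx : (0 : ℝ) < 2 * p + 1 := by positivity
  have e : sp (2 * p + 1) (p + 1 : ℕ) = sp (2 * p + 1) p := by
    unfold sp
    rw [← sin_pi_sub]
    congr 1
    push_cast
    field_simp
    ring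
  rcases Nat.lt_or_ge p i with h | h
  · have : i = p + 1 := by omega
    rw [this]
  · rw [e]
    unfold sp
    have hi' : (i : ℝ) ≤ p := by exact_mod_cast h
    apply sin_le_sin_of_le_of_le_pi_div_two
    · have : (0 : ℝ) ≤ π * i / (2 * p + 1) := by positivity
      linarith [pi_pos]
    · rw [div_le_div_iff₀ hx (by norm_num)]
      nlinarith [pi_pos]
    · apply div_le_div_of_nonneg_right _ hx.le
      exact mul_le_mul_of_nonneg_left hi' pi_pos.le

/-- The cosine profile. -/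
noncomputable def cp (x : ℝ) (i : ℕ) : ℝ := cos (π * (2 * i + 1) / (2 * x))

theorem cp_rec (x : ℝ) (hx : x ≠ 0) (i : ℕ) :
    cp x i + cp x (i + 2) = (2 - rate x) * cp x (i + 1) := by
  unfold cp rate
  have h1 : π * (2 * ((i + 1 : ℕ) : ℝ) + 1) / (2 * x) = π * (2 * i + 1) / (2 * x) + π / x := by
    push_cast; field_simp; ring
  have h2 : π * (2 * ((i + 2 : ℕ) : ℝ) + 1) / (2 * x)
      = (π * (2 * i + 1) / (2 * x) + π / x) + π / x := by
    push_cast; field_simp; ring
  have h3 : π * (2 * (i : ℝ) + 1) / (2 * x) = (π * (2 * i + 1) / (2 * x) + π / x) - π / x := by ring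
  rw [h1, h2]
  conv_lhs => rw [h3]
  rw [sub_add_cancel, cos_sub, cos_add (π * (2 * i + 1) / (2 * x) + π / x)]
  ring

theorem cp_zero_one (x : ℝ) (hx : x ≠ 0) : cp x 0 - cp x 1 = rate x * cp x 0 := by
  unfold cp rate
  have h1 : π * (2 * ((1 : ℕ) : ℝ) + 1) / (2 * x) = π / (2 * x) + π / x := by
    push_cast; field_simp; ring
  have h0 : π * (2 * ((0 : ℕ) : ℝ) + 1) / (2 * x) = π / (2 * x) := by
    push_cast; ring
  have h2 : cos (π / (2 * x)) = cos (π / (2 * x) - π / x) := by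
    rw [← cos_neg]; congr 1; field_simp; ring
  rw [h1, h0, cos_add]
  have h3 : cos (π / (2 * x)) = cos (π / (2 * x)) * cos (π / x) + sin (π / (2 * x)) * sin (π / x) := by
    conv_lhs => rw [h2, cos_sub]
  linear_combination (-1 : ℝ) * h3

theorem cp_pos (p i : ℕ) (h : i < p) : 0 < cp (2 * p + 1) i := by
  unfold cp
  have hi : (i : ℝ) + 1 ≤ p := by exact_mod_cast h
  have hx : (0 : ℝ) < 2 * (2 * p + 1) := by positivity
  apply cos_pos_of_mem_Ioo
  constructor
  · have : (0 : ℝ) ≤ π * (2 * i + 1) / (2 * (2 * p + 1)) := by positivity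
    linarith [pi_pos]
  · rw [div_lt_div_iff₀ hx (by norm_num)]
    nlinarith [pi_pos]

theorem cp_end (p : ℕ) : cp (2 * p + 1) p = 0 := by
  unfold cp
  have : π * (2 * (p : ℝ) + 1) / (2 * (2 * p + 1)) = π / 2 := by field_simp
  rw [this, cos_pi_div_two]

end Pool.Agent.R804.TU
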