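import Pool.Agent.R804.TU.Energy

/-!
# Energies with walls
-/

set_option autoImplicit false

namespace Pool.Agent.R804.TU

open Finset

/-! ### Profiles from the recurrence -/

theorem TT_zero (s : ℕ → ℝ) (p : ℕ) : TT s p 0 = 0 := by simp [TT]

theorem TT_succ (s : ℕ → ℝ) (p r : ℕ) : TT s p (r + 1) = TT s p r + s (p + 1 + r) := by
  unfold TT; rw [Finset.sum_range_succ]

theorem TT_succ' (s : ℕ → ℝ) (p r : ℕ) : TT s p (r + 1) = s (p + 1) + TT s (p + 1) r := by
  unfold TT; rw [Finset.sum_range_succ']
  have : ∀ i ∈ range r, s (p + 1 + (i + 1)) = s (p + 1 + 1 + i) := by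
    intro i _; congr 1; ring
  rw [Finset.sum_congr rfl this]
  simp; ring

theorem tele_TT {s : ℕ → ℝ} {ε : ℝ} (hrec : ∀ i, s i + s (i + 2) = (2 - ε) * s (i + 1)) (p r : ℕ) :
    ε * TT s p r = s (p + 1) - s p - s (p + r + 1) + s (p + r) := by
  induction r with
  | zero => simp [TT_zero]
  | succ r ih =>
    rw [TT_succ, mul_add, ih]
    have := hrec (p + r)
    rw [show p + 1 + r = p + r + 1 by ring, show p + (r + 1) + 1 = p + r + 2 by ring,
      show p + (r + 1) = p + r + 1 by ring]
    linear_combination this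

theorem prof_of_rec {s : ℕ → ℝ} {ε : ℝ} {M : ℕ} (hε : 0 ≤ ε)
    (hrec : ∀ i, s i + s (i + 2) = (2 - ε) * s (i + 1)) (hn : ∀ i, i ≤ M → 0 ≤ s i) :
    Prof s ε M := by
  have tn : ∀ p r, p + r ≤ M → 0 ≤ TT s p r := by
    intro p r h
    apply Finset.sum_nonneg
    intro i hi
    have := Finset.mem_range.1 hi
    exact hn _ (by omega)
  have ends : ∀ p r, p + r + 1 ≤ M → s p + s (p + r + 1) ≤ s (p + 1) + s (p + r) := by
    intro p r h
    have h1 := tele_TT hrec p r
    have h2 := mul_nonneg hε (tn p r (by omega))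
    linarith
  have trap : ∀ r p, p + r + 1 ≤ M → (r : ℝ) / 2 * (s p + s (p + r + 1)) ≤ TT s p r := by
    intro r
    induction r using Nat.strong_induction_on with
    | _ r ih =>
      intro p h
      rcases r with _ | _ | r
      · simp [TT_zero]
      · have h1 := hrec p
        have h2 := mul_nonneg hε (hn (p + 1) (by omega))
        rw [TT_succ, TT_zero]
        simp only [Nat.zero_add, add_zero]
        push_cast
        rw [show p + 1 + 1 = p + 2 by ring]
        linarith
      · have h1 := ih r (by omega) (p + 1) (by omega)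
        have h2 := ends p (r + 2) (by omega)
        rw [TT_succ', TT_succ]
        rw [show p + 1 + r + 1 = p + (r + 2) by ring] at h1
        rw [show p + 1 + 1 + r = p + (r + 2) by ring]
        have h3 : (0 : ℝ) ≤ r := Nat.cast_nonneg _
        push_cast
        nlinarith
  have c2 : ∀ p r, 2 ≤ r → p + r + 1 ≤ M →
      2 * ε * TT s p r ≤ 2 * TT s p r - r * (s p + s (p + r + 1)) := by
    intro p r h2 h
    obtain ⟨r, rfl⟩ : ∃ q, r = q + 2 := ⟨r - 2, by omega⟩
    have h1 := tele_TT hrec p (r + 2)
    have h3 := trap r (p + 1) (by omega)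
    have h4 := ends p (r + 2) (by omega)
    rw [show p + 1 + r + 1 = p + (r + 2) by ring] at h3
    have h5 : TT s p (r + 2) = s (p + 1) + (TT s (p + 1) r + s (p + (r + 2))) := by
      rw [TT_succ', TT_succ, show p + 1 + 1 + r = p + (r + 2) by ring]
    have h6 : (0 : ℝ) ≤ r := Nat.cast_nonneg _
    have h7 : 2 * ε * TT s p (r + 2) = 2 * (s (p + 1) - s p - s (p + (r + 2) + 1) + s (p + (r + 2))) := by
      rw [← h1]; ring
    rw [h7, h5]
    push_cast
    nlinarith
  refine ⟨hn, ?_, c2⟩
  intro p r h
  rcases r with _ | _ | r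
  · simp [TT_zero]
  · have h1 := hrec p
    rw [TT_succ, TT_zero]
    simp only [Nat.zero_add, add_zero]
    push_cast
    rw [show p + 1 + 1 = p + 2 by ring]
    linarith
  · have h1 := c2 p (r + 2) (by omega) h
    have h2 := mul_nonneg hε (tn p (r + 2) (by omega))
    have h3 : 2 * ε * TT s p (r + 2) = 2 * (ε * TT s p (r + 2)) := by ring
    have h4 : (((r + 1 + 1 : ℕ)) : ℝ) = ((r + 2 : ℕ) : ℝ) := rfl
    linarith

/-! ### Positivity -/

theorem V_nonneg {s : ℕ → ℝ} {ε : ℝ} {M : ℕ} (hs : Prof s ε M) (w : List Circ) :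
    ∀ p, ep p w ≤ M → 0 ≤ V s p w := by
  induction w with
  | nil => intro p _; exact le_refl _
  | cons β w ih =>
    intro p h
    have h' : ep (nx p β) w ≤ M := h
    rw [V_cons]
    exact add_nonneg (mul_nonneg (co_pos _).le (ih _ h'))
      (mul_nonneg (om_pos _).le (own_nonneg hs p β ((ep_le_of _ _).trans h')))

theorem V_pos {s : ℕ → ℝ} {ε : ℝ} {M : ℕ} (hs : Prof s ε M)
    (hp : ∀ i, 0 < i → i < M → 0 < s i) (w : List Circ) :
    ∀ p, ep p w ≤ M → 0 < hdeg w → 0 < V s p w := by
  induction w with
  | nil => intro p _ h; simp [hdeg_nil] at h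
  | cons β w ih =>
    intro p h hd
    have h' : ep (nx p β) w ≤ M := h
    have hnx : nx p β ≤ M := (ep_le_of _ _).trans h'
    have hV := V_nonneg hs w (nx p β) h'
    rw [V_cons]
    rcases Nat.eq_zero_or_pos β.1 with h0 | h0
    · rw [hdeg_cons, h0, zero_add] at hd
      exact add_pos_of_pos_of_nonneg (mul_pos (co_pos _) (ih _ h' hd))
        (mul_nonneg (om_pos _).le (own_nonneg hs p β hnx))
    · refine add_pos_of_nonneg_of_pos (mul_nonneg (co_pos _).le hV) (mul_pos (om_pos _) ?_)
      unfold own
      unfold nx at hnx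
      split_ifs at * with hb
      · refine mul_pos (by exact_mod_cast h0) ?_
        apply Finset.sum_pos
        · intro i hi
          have := Finset.mem_range.1 hi
          exact hp _ (by omega) (by omega)
        · exact ⟨0, by simp⟩
      · apply Finset.sum_pos
        · intro i hi
          have := Finset.mem_range.1 hi
          exact hp _ (by omega) (by omega)
        · exact ⟨0, by simp [h0]⟩

/-! ### Walls -/

theorem wall_left {s : ℕ → ℝ} {ε : ℝ} {M : ℕ} (hs : Prof s ε M) (h0 : s 0 = 0) (β : Circ)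
    (w : List Circ) (h : ep 0 (β :: w) ≤ M) :
    om w * LS s 0 β ≤ half β * V s 0 (β :: w) := by
  have h' : ep (nx 0 β) w ≤ M := h
  have hV := V_nonneg hs w (nx 0 β) h'
  have hown := own_nonneg hs 0 β ((ep_le_of _ _).trans h')
  have ho := mul_nonneg (om_pos w).le hown
  have hc := mul_nonneg (co_pos β).le hV
  rw [V_cons]
  obtain ⟨m, b⟩ := β
  cases b
  · simp only [LS, half, own, Bool.false_eq_true, if_false, h0, mul_zero, sub_zero] at *
    rcases Nat.eq_zero_or_pos m with hm | hm
    · subst hm; simp [TT_zero]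
    · have : (1 : ℝ) ≤ m := by exact_mod_cast hm
      nlinarith
  · simp only [LS, half, own, if_true, h0, mul_zero, sub_zero] at *
    rcases Nat.eq_zero_or_pos m with hm | hm
    · subst hm; simp
    · have : (1 : ℝ) ≤ m := by exact_mod_cast hm
      nlinarith

theorem hl_nonneg (w : List Circ) : 0 ≤ hl w := by
  induction w with
  | nil => exact le_refl _
  | cons β w ih =>
    rcases w with _ | ⟨γ, w⟩
    · exact half_nonneg β
    · exact ih

theorem wall_right {s : ℕ → ℝ} {ε : ℝ} {M : ℕ} (hs : Prof s ε M) (w : List Circ) :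
    ∀ p, ep p w ≤ M → s (ep p w) = 0 → RL s p w ≤ hl w * V s p w := by
  induction w with
  | nil => intro p _ _; simp [RL, hl]
  | cons β w ih =>
    intro p h h0
    have h' : ep (nx p β) w ≤ M := h
    have hown := own_nonneg hs p β ((ep_le_of _ _).trans h')
    rcases w with _ | ⟨γ, w⟩
    · have h0' : s (nx p β) = 0 := h0
      simp only [RL, hl, V, om_nil, mul_zero, zero_add, one_mul]
      obtain ⟨m, b⟩ := β
      cases b
      · simp only [RS, half, own, Bool.false_eq_true, if_false, h0', mul_zero, sub_zero] at *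
        rcases Nat.eq_zero_or_pos m with hm | hm
        · subst hm; simp [TT_zero]
        · have : (1 : ℝ) ≤ m := by exact_mod_cast hm
          nlinarith
      · simp only [RS, half, own, if_true, h0', mul_zero, sub_zero] at *
        rcases Nat.eq_zero_or_pos m with hm | hm
        · subst hm; simp
        · have : (1 : ℝ) ≤ m := by exact_mod_cast hm
          nlinarith
    · have hi := ih (nx p β) h' h0
      simp only [RL, hl]
      rw [V_cons s p β (γ :: w)]
      have h1 := mul_le_mul_of_nonneg_left hi (co_pos β).le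
      have h2 := mul_nonneg (hl_nonneg (γ :: w)) (mul_nonneg (om_pos (γ :: w)).le hown)
      nlinarith

theorem wall_free {s : ℕ → ℝ} {ε : ℝ} {M : ℕ} (hs : Prof s ε M) (w : List Circ) :
    ∀ p, ep p w ≤ M → (∀ i, i ≤ ep p w → s i ≤ s (ep p w)) → RL s p w ≤ 0 := by
  induction w with
  | nil => intro p _ _; exact le_refl _
  | cons β w ih =>
    intro p h hm
    have h' : ep (nx p β) w ≤ M := h
    rcases w with _ | ⟨γ, w⟩
    · have hep : ep p [β] = nx p β := rfl
      rw [hep] at hm
      have key : ∀ r, p + r + 1 ≤ nx p β + 0 → TT s p r ≤ r * s (nx p β) := by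
        intro r hr
        unfold TT
        calc ∑ i ∈ range r, s (p + 1 + i) ≤ ∑ i ∈ range r, s (nx p β) := by
              apply Finset.sum_le_sum
              intro i hi
              have := Finset.mem_range.1 hi
              exact hm _ (by omega)
          _ = r * s (nx p β) := by simp
      simp only [RL, RS]
      split_ifs with hb
      · have := key (β.1 + 1) (by unfold nx; simp [hb]; omega)
        push_cast at this
        apply mul_nonpos_of_nonneg_of_nonpos (by positivity)
        linarith
      · have := key β.1 (by unfold nx; simp [hb])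
        linarith
    · simp only [RL]
      exact mul_nonpos_of_nonneg_of_nonpos (co_pos β).le (ih _ h' hm)

/-- Lists with at most one label `𝟏`, both walls. -/
theorem energy_two_walls {s : ℕ → ℝ} {ε : ℝ} (w : List Circ) (hw : w ≠ []) (h1 : ones w ≤ 1)
    (hs : Prof s ε (ep 0 w)) (h0 : s 0 = 0) (hM : s (ep 0 w) = 0) :
    ε * V s 0 w ≤ DD w * V s 0 w - NS (V s 0) w := by
  rcases w with _ | ⟨β, w⟩
  · exact absurd rfl hw
  · rw [DD_NS]
    have a := main_ineq hs w 0 β h1 (le_refl _)
    have b := wall_left hs h0 β w (le_refl _)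
    have c := wall_right hs (β :: w) 0 (le_refl _) hM
    have : hf (β :: w) = half β := rfl
    rw [this]
    linarith

/-- Lists with at most one label `𝟏`, left wall and free right end. -/
theorem energy_free {s : ℕ → ℝ} {ε : ℝ} (w : List Circ) (hw : w ≠ []) (h1 : ones w ≤ 1)
    (hs : Prof s ε (ep 0 w)) (h0 : s 0 = 0) (hM : ∀ i, i ≤ ep 0 w → s i ≤ s (ep 0 w)) :
    ε * V s 0 w ≤ Eg (V s 0) w + hf w * V s 0 w := by
  rcases w with _ | ⟨β, w⟩
  · exact absurd rfl hw
  · have a := main_ineq hs w 0 β h1 (le_refl _)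
    have b := wall_left hs h0 β w (le_refl _)
    have c := wall_free hs (β :: w) 0 (le_refl _) hM
    have : hf (β :: w) = half β := rfl
    rw [this]
    linarith

end Pool.Agent.R804.TU
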